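import Pool.Agent.H157Z.Zon.Spec

set_option autoImplicit false

/-! The reverse Santalo inequality for symmetric polytopes from the contour deformation
inequality. -/

namespace Pool.Agent.H157Z.Zon

open MeasureTheory Finset
open scoped Pointwise

namespace BM

lemma cheb {J : Type} [Fintype J] (e b u : J → ℝ) (he : ∀ j, 0 < e j)
    (h : ∀ j l, 0 ≤ (b j - b l) * (u j - u l)) (j0 l0 : J)
    (h0 : 0 < (b j0 - b l0) * (u j0 - u l0)) :
    (∑ j, e j * b j) * (∑ j, e j * u j) < (∑ j, e j * u j * b j) * (∑ j, e j) := by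
  have key : ∑ j, ∑ l, e j * e l * ((b j - b l) * (u j - u l)) =
      2 * ((∑ j, e j * u j * b j) * (∑ j, e j) - (∑ j, e j * b j) * (∑ j, e j * u j)) := by
    have h1 : ∑ j, ∑ l, (e j * u j * b j) * e l = (∑ j, e j * u j * b j) * (∑ j, e j) :=
      (Finset.sum_mul_sum _ _ _ _).symm
    have h2 : ∑ j, ∑ l, e j * (e l * u l * b l) = (∑ j, e j * u j * b j) * (∑ j, e j) := by
      rw [mul_comm]; exact (Finset.sum_mul_sum _ _ _ _).symm
    have h3 : ∑ j, ∑ l, (e j * b j) * (e l * u l) = (∑ j, e j * b j) * (∑ j, e j * u j) :=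
      (Finset.sum_mul_sum _ _ _ _).symm
    have h4 : ∑ j, ∑ l, (e j * u j) * (e l * b l) = (∑ j, e j * b j) * (∑ j, e j * u j) := by
      rw [mul_comm]; exact (Finset.sum_mul_sum _ _ _ _).symm
    have : ∑ j, ∑ l, e j * e l * ((b j - b l) * (u j - u l)) =
        ∑ j, ∑ l, (e j * u j * b j) * e l + ∑ j, ∑ l, e j * (e l * u l * b l)
          - ∑ j, ∑ l, (e j * b j) * (e l * u l) - ∑ j, ∑ l, (e j * u j) * (e l * b l) := by
      simp only [← Finset.sum_add_distrib, ← Finset.sum_sub_distrib]
      refine Finset.sum_congr rfl fun j _ => Finset.sum_congr rfl fun l _ => ?_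
      ring
    rw [this, h1, h2, h3, h4]; ring
  have pos : 0 < ∑ j, ∑ l, e j * e l * ((b j - b l) * (u j - u l)) := by
    refine Finset.sum_pos' (fun j _ => Finset.sum_nonneg fun l _ =>
      mul_nonneg (mul_pos (he j) (he l)).le (h j l)) ⟨j0, Finset.mem_univ _, ?_⟩
    exact Finset.sum_pos' (fun l _ => mul_nonneg (mul_pos (he j0) (he l)).le (h j0 l))
      ⟨l0, Finset.mem_univ _, mul_pos (mul_pos (he j0) (he l0)) h0⟩
  linarith

section gen
variable {m : ℕ} {J : Type} [Fintype J] [Nonempty J]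

lemma den_pos (β : ℝ) (p : J → Fin m → ℝ) (x : Fin m → ℝ) :
    0 < ∑ l, Real.exp (β * ∑ i, p l i * x i) :=
  Finset.sum_pos (fun _ _ => Real.exp_pos _) Finset.univ_nonempty

lemma wt_pos (β : ℝ) (p : J → Fin m → ℝ) (x : Fin m → ℝ) (j : J) : 0 < wt β p x j :=
  div_pos (Real.exp_pos _) (den_pos β p x)

lemma sum_wt (β : ℝ) (p : J → Fin m → ℝ) (x : Fin m → ℝ) : ∑ j, wt β p x j = 1 := by
  unfold wt
  rw [← Finset.sum_div, div_self (den_pos β p x).ne']

omit [Nonempty J] in
lemma dot_gr (β : ℝ) (p : J → Fin m → ℝ) (x d : Fin m → ℝ) :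
    ∑ i, d i * gr β p x i = ∑ j, wt β p x j * ∑ i, p j i * d i := by
  unfold gr
  simp only [Finset.mul_sum]
  rw [Finset.sum_comm]
  refine Finset.sum_congr rfl fun j _ => Finset.sum_congr rfl fun i _ => ?_
  ring

lemma mono (β : ℝ) (hβ : 0 < β) (p : J → Fin m → ℝ) (x d : Fin m → ℝ) (j0 l0 : J)
    (hne : ∑ i, p j0 i * d i ≠ ∑ i, p l0 i * d i) :
    ∑ i, d i * gr β p x i < ∑ i, d i * gr β p (x + d) i := by
  rw [dot_gr, dot_gr]
  set b : J → ℝ := fun j => ∑ i, p j i * d i with hb
  set e : J → ℝ := fun j => Real.exp (β * ∑ i, p j i * x i) with he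
  set u : J → ℝ := fun j => Real.exp (β * b j) with hu
  have hsplit : ∀ j, Real.exp (β * ∑ i, p j i * (x + d) i) = e j * u j := by
    intro j
    simp only [he, hu, hb, Pi.add_apply, mul_add, Finset.sum_add_distrib, Real.exp_add]
  have hmono : StrictMono fun t : ℝ => Real.exp (β * t) := fun s t hst =>
    Real.exp_lt_exp.2 (mul_lt_mul_of_pos_left hst hβ)
  have hlt : ∀ j l, b j ≠ b l → 0 < (b j - b l) * (u j - u l) := by
    intro j l hjl
    rcases lt_or_gt_of_ne hjl with h | h
    · have := hmono h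
      exact mul_pos_of_neg_of_neg (by linarith) (by simp only [hu]; linarith)
    · have := hmono h
      exact mul_pos (by linarith) (by simp only [hu]; linarith)
  have hle : ∀ j l, 0 ≤ (b j - b l) * (u j - u l) := by
    intro j l
    by_cases hjl : b j = b l
    · rw [hjl]; simp
    · exact (hlt j l hjl).le
  have hc := cheb e b u (fun j => Real.exp_pos _) hle j0 l0 (hlt j0 l0 hne)
  have p1 : 0 < ∑ j, e j := den_pos β p x
  have p2 : 0 < ∑ j, e j * u j :=
    Finset.sum_pos (fun j _ => mul_pos (Real.exp_pos _) (Real.exp_pos _)) Finset.univ_nonempty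
  have e1 : ∑ j, wt β p x j * b j = (∑ j, e j * b j) / ∑ j, e j := by
    rw [Finset.sum_div]
    refine Finset.sum_congr rfl fun j _ => ?_
    unfold wt; simp only [he]; ring
  have e2 : ∑ j, wt β p (x + d) j * b j = (∑ j, e j * u j * b j) / ∑ j, e j * u j := by
    rw [Finset.sum_div]
    refine Finset.sum_congr rfl fun j _ => ?_
    unfold wt; simp only [hsplit]; ring
  change ∑ j, wt β p x j * b j < ∑ j, wt β p (x + d) j * b j
  rw [e1, e2, div_lt_div_iff₀ p1 p2]
  exact hc

lemma lower (p : J → Fin m → ℝ) (x : Fin m → ℝ) (A : ℝ) (j0 : J)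
    (hA : ∑ i, p j0 i * x i = A) (hle : ∀ j, ∑ i, p j i * x i ≤ A) :
    A - 1 ≤ ∑ i, x i * gr (Fintype.card J : ℝ) p x i := by
  rw [dot_gr]
  set β : ℝ := (Fintype.card J : ℝ) with hβ
  have hβ0 : 0 < β := by simp only [hβ]; exact_mod_cast Fintype.card_pos
  have h1 : ∀ j, wt β p x j * (A - ∑ i, p j i * x i) ≤ 1 / β := by
    intro j
    set t := A - ∑ i, p j i * x i with ht
    have ht0 : 0 ≤ t := by have := hle j; linarith
    have hw : wt β p x j ≤ Real.exp (-(β * t)) := by
      unfold wt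
      rw [div_le_iff₀ (den_pos β p x)]
      have h2 : Real.exp (β * A) ≤ ∑ l, Real.exp (β * ∑ i, p l i * x i) := by
        rw [← hA]
        exact Finset.single_le_sum (f := fun l => Real.exp (β * ∑ i, p l i * x i))
          (fun l _ => (Real.exp_pos _).le) (Finset.mem_univ j0)
      calc Real.exp (β * ∑ i, p j i * x i) = Real.exp (-(β * t)) * Real.exp (β * A) := by
            rw [← Real.exp_add]; congr 1; rw [ht]; ring
        _ ≤ _ := mul_le_mul_of_nonneg_left h2 (Real.exp_pos _).le
    have h3 : β * t ≤ Real.exp (β * t) := by have := Real.add_one_le_exp (β * t); linarith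
    have h4 : Real.exp (-(β * t)) * t ≤ 1 / β := by
      rw [le_div_iff₀ hβ0, Real.exp_neg, mul_assoc, inv_mul_le_iff₀ (Real.exp_pos _)]
      linarith
    exact (mul_le_mul_of_nonneg_right hw ht0).trans h4
  have h5 : ∑ j, wt β p x j * (A - ∑ i, p j i * x i) ≤ 1 := by
    calc _ ≤ ∑ _j : J, 1 / β := Finset.sum_le_sum fun j _ => h1 j
      _ = 1 := by
        rw [Finset.sum_const, Finset.card_univ, nsmul_eq_mul, ← hβ]; field_simp
  have h6 : ∑ j, wt β p x j * (A - ∑ i, p j i * x i) =
      A - ∑ j, wt β p x j * ∑ i, p j i * x i := by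
    simp only [mul_sub, Finset.sum_sub_distrib]
    rw [← Finset.sum_mul, sum_wt, one_mul]
  linarith

lemma cont_wt (β : ℝ) (p : J → Fin m → ℝ) (j : J) : Continuous fun x => wt β p x j := by
  unfold wt
  refine Continuous.div (by fun_prop) (by fun_prop) fun x => (den_pos β p x).ne'

lemma cont_gr (β : ℝ) (p : J → Fin m → ℝ) (i : Fin m) : Continuous fun x => gr β p x i := by
  unfold gr
  exact continuous_finsetSum _ fun j _ => (cont_wt β p j).mul continuous_const

lemma cont_hs (β : ℝ) (p : J → Fin m → ℝ) : Continuous fun x => hs β p x := by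
  refine continuous_pi fun a => continuous_pi fun b => ?_
  simp only [hs, Matrix.of_apply]
  refine continuous_const.mul (Continuous.sub ?_ ((cont_gr β p a).mul (cont_gr β p b)))
  exact continuous_finsetSum _ fun j _ =>
    ((cont_wt β p j).mul continuous_const).mul continuous_const

end gen

section sym
variable {m : ℕ} {K : Type} [Fintype K] [Nonempty K]

/-- the symmetrised family -/
def pp (q : K → Fin m → ℝ) : K × Bool → Fin m → ℝ := fun j => if j.2 then q j.1 else -q j.1

/-- the polytope norm -/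
noncomputable def hh (q : K → Fin m → ℝ) (x : Fin m → ℝ) : ℝ := ‖fun k => ∑ i, q k i * x i‖

omit [Fintype K] [Nonempty K] in
lemma pp_true (q : K → Fin m → ℝ) (k : K) (x : Fin m → ℝ) :
    ∑ i, pp q (k, true) i * x i = ∑ i, q k i * x i := by simp [pp]

omit [Fintype K] [Nonempty K] in
lemma pp_false (q : K → Fin m → ℝ) (k : K) (x : Fin m → ℝ) :
    ∑ i, pp q (k, false) i * x i = -∑ i, q k i * x i := by simp [pp]

lemma hh_lower (q : K → Fin m → ℝ) (x : Fin m → ℝ) :
    hh q x - 1 ≤ ∑ i, x i * gr (Fintype.card (K × Bool) : ℝ) (pp q) x i := by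
  obtain ⟨k0, hk0⟩ : ∃ k0, hh q x = |∑ i, q k0 i * x i| := by
    obtain ⟨k0, hk0⟩ := Finite.exists_max fun k => |∑ i, q k i * x i|
    refine ⟨k0, le_antisymm ?_ ?_⟩
    · exact (pi_norm_le_iff_of_nonneg (abs_nonneg _)).2 fun k => hk0 k
    · exact norm_le_pi_norm (fun k => ∑ i, q k i * x i) k0
  have hle : ∀ j, ∑ i, pp q j i * x i ≤ hh q x := by
    rintro ⟨k, b⟩
    have h := norm_le_pi_norm (fun k => ∑ i, q k i * x i) k
    rw [Real.norm_eq_abs] at h
    cases b
    · rw [pp_false]; exact (neg_le_abs _).trans h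
    · rw [pp_true]; exact (le_abs_self _).trans h
  rcases le_total 0 (∑ i, q k0 i * x i) with h | h
  · exact lower (pp q) x _ (k0, true) (by rw [pp_true, hk0, abs_of_nonneg h]) hle
  · exact lower (pp q) x _ (k0, false) (by rw [pp_false, hk0, abs_of_nonpos h]) hle

omit [Nonempty K] in
lemma hh_add (q : K → Fin m → ℝ) (x y : Fin m → ℝ) : hh q (x + y) ≤ hh q x + hh q y := by
  unfold hh
  have : (fun k => ∑ i, q k i * (x + y) i) =
      (fun k => ∑ i, q k i * x i) + fun k => ∑ i, q k i * y i := by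
    funext k; simp [mul_add, Finset.sum_add_distrib]
  rw [this]; exact norm_add_le _ _

omit [Nonempty K] in
lemma hh_smul (q : K → Fin m → ℝ) (r : ℝ) (x : Fin m → ℝ) : hh q (r • x) = |r| * hh q x := by
  unfold hh
  have : (fun k => ∑ i, q k i * (r • x) i) = r • fun k => ∑ i, q k i * x i := by
    funext k
    simp only [Pi.smul_apply, smul_eq_mul, Finset.mul_sum]
    exact Finset.sum_congr rfl fun i _ => by ring
  rw [this, norm_smul, Real.norm_eq_abs]

omit [Nonempty K] in
lemma hh_neg (q : K → Fin m → ℝ) (x : Fin m → ℝ) : hh q (-x) = hh q x := by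
  have := hh_smul q (-1) x
  simpa using this

omit [Nonempty K] in
lemma hh_cont (q : K → Fin m → ℝ) : Continuous (hh q) := by
  unfold hh; fun_prop

lemma strict (q : K → Fin m → ℝ) (hq : ∀ x : Fin m → ℝ, ‖x‖ ≤ hh q x) (β : ℝ) (hβ : 0 < β)
    (x d : Fin m → ℝ) (hd : d ≠ 0) :
    ∑ i, d i * gr β (pp q) x i < ∑ i, d i * gr β (pp q) (x + d) i := by
  obtain ⟨k, hk⟩ : ∃ k, ∑ i, q k i * d i ≠ 0 := by
    by_contra hcon
    push Not at hcon
    have h0 : hh q d = 0 := by
      unfold hh
      have : (fun k => ∑ i, q k i * d i) = 0 := funext hcon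
      rw [this, norm_zero]
    have := hq d
    rw [h0] at this
    exact hd (norm_le_zero_iff.1 this)
  refine mono β hβ (pp q) x d (k, true) (k, false) ?_
  rw [pp_true, pp_false]
  intro h
  exact hk (by linarith)

lemma slice (h2 : DerSt) (q : K → Fin m → ℝ) (hq : ∀ x : Fin m → ℝ, ‖x‖ ≤ hh q x)
    (Q : Set (Fin m → ℝ))
    (hQ : ∀ c : K → ℝ, ∑ k, |c k| ≤ 1 → (fun i => ∑ k, c k * q k i) ∈ Q)
    (β : ℝ) (hβ : 0 < β) (z : Fin m → ℝ) :
    ∫⁻ y, ENNReal.ofReal |(hs β (pp q) (y + z) + hs β (pp q) y).det| ≤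
      ENNReal.ofReal (2 ^ m) * volume Q := by
  set G : (Fin m → ℝ) → Fin m → ℝ := fun y => gr β (pp q) (y + z) + gr β (pp q) y with hG
  set G' : (Fin m → ℝ) → (Fin m → ℝ) →L[ℝ] (Fin m → ℝ) := fun y =>
    LinearMap.toContinuousLinearMap (Matrix.toLin' (hs β (pp q) (y + z) + hs β (pp q) y)) with hG'
  have hder : ∀ y, HasFDerivAt G (G' y) y := by
    intro y
    have a1 := h2 m (K × Bool) β (pp q) (y + z)
    have a2 := h2 m (K × Bool) β (pp q) y
    have a3 : HasFDerivAt (fun y => gr β (pp q) (y + z))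
        (LinearMap.toContinuousLinearMap (Matrix.toLin' (hs β (pp q) (y + z)))) y :=
      (hasFDerivAt_comp_add_right z).2 a1
    have a4 := a3.add a2
    simp only [hG', map_add]
    exact a4
  have hinj : Function.Injective G := by
    intro y1 y2 h12
    by_contra hne
    have hd : y1 - y2 ≠ 0 := sub_ne_zero.2 hne
    have s1 := strict q hq β hβ (y2 + z) (y1 - y2) hd
    have s2 := strict q hq β hβ y2 (y1 - y2) hd
    have e1 : y2 + z + (y1 - y2) = y1 + z := by abel
    have e2 : y2 + (y1 - y2) = y1 := by abel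
    rw [e1] at s1
    rw [e2] at s2
    have e3 : ∑ i, (y1 - y2) i * G y1 i = ∑ i, (y1 - y2) i * G y2 i := by rw [h12]
    simp only [hG, Pi.add_apply, mul_add, Finset.sum_add_distrib] at e3
    linarith
  have himg : G '' Set.univ ⊆ (2 : ℝ) • Q := by
    rintro _ ⟨y, -, rfl⟩
    set c : K → ℝ := fun k => (wt β (pp q) (y + z) (k, true) - wt β (pp q) (y + z) (k, false)
      + (wt β (pp q) y (k, true) - wt β (pp q) y (k, false))) / 2 with hc
    have hsum : ∀ x, ∑ k, (wt β (pp q) x (k, true) + wt β (pp q) x (k, false)) = 1 := by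
      intro x
      have := sum_wt β (pp q) x
      rw [Fintype.sum_prod_type] at this
      simpa [Fintype.sum_bool] using this
    have hgr : ∀ x i, gr β (pp q) x i =
        ∑ k, (wt β (pp q) x (k, true) - wt β (pp q) x (k, false)) * q k i := by
      intro x i
      unfold gr
      rw [Fintype.sum_prod_type]
      refine Finset.sum_congr rfl fun k _ => ?_
      simp only [Fintype.sum_bool, pp, if_true, Bool.false_eq_true, if_false, Pi.neg_apply]
      ring
    refine ⟨fun i => ∑ k, c k * q k i, hQ c ?_, ?_⟩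
    · have hk : ∀ k, |c k| ≤ ((wt β (pp q) (y + z) (k, true) + wt β (pp q) (y + z) (k, false))
          + (wt β (pp q) y (k, true) + wt β (pp q) y (k, false))) / 2 := by
        intro k
        have w1 := wt_pos β (pp q) (y + z) (k, true)
        have w2 := wt_pos β (pp q) (y + z) (k, false)
        have w3 := wt_pos β (pp q) y (k, true)
        have w4 := wt_pos β (pp q) y (k, false)
        simp only [hc]
        rw [abs_le]; constructor <;> linarith
      refine (Finset.sum_le_sum fun k _ => hk k).trans (le_of_eq ?_)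
      rw [← Finset.sum_div, Finset.sum_add_distrib, hsum, hsum]; norm_num
    · funext i
      simp only [hG, Pi.smul_apply, Pi.add_apply, smul_eq_mul, hgr, Finset.mul_sum,
        ← Finset.sum_add_distrib]
      refine Finset.sum_congr rfl fun k _ => ?_
      simp only [hc]; ring
  have hJ := lintegral_abs_det_fderiv_eq_addHaar_image volume MeasurableSet.univ
    (fun y _ => (hder y).hasFDerivWithinAt) hinj.injOn
  have hdet : ∀ y, (G' y).det = (hs β (pp q) (y + z) + hs β (pp q) y).det := by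
    intro y
    simp only [hG', ContinuousLinearMap.det, LinearMap.coe_toContinuousLinearMap,
      LinearMap.det_toLin']
  simp only [hdet, Measure.restrict_univ] at hJ
  rw [hJ]
  refine (measure_mono himg).trans (le_of_eq ?_)
  rw [Measure.addHaar_smul]
  simp

omit [Nonempty K] in
lemma gam (q : K → Fin m → ℝ) (hq : ∀ x : Fin m → ℝ, ‖x‖ ≤ hh q x) :
    ∫⁻ z, ENNReal.ofReal (Real.exp (-(hh q z / 2))) =
      ENNReal.ofReal (2 ^ m) * m.factorial * volume {x | hh q x < 1} := by
  have h0 : hh q 0 = 0 := by have := hh_smul q 0 0; simpa using this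
  have hv := measure_lt_one_eq_integral_div_gamma (E := Fin m → ℝ) volume
    (g := fun x => hh q x / 2) (by simp [h0]) (fun x => by simp only [hh_neg])
    (fun x y => by have := hh_add q x y; linarith)
    (fun {x} hx => by
      have := hq x
      have hx' : hh q x = 0 := by linarith
      rw [hx'] at this; exact norm_le_zero_iff.1 this)
    (fun r x => by simp only [hh_smul]; exact le_of_eq (by ring)) (p := 1) one_pos
  simp only [Real.rpow_one, Module.finrank_fin_fun, div_one, Real.Gamma_nat_eq_factorial] at hv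
  have hset : {x : Fin m → ℝ | hh q x / 2 < 1} = (2 : ℝ) • {x | hh q x < 1} := by
    ext x
    rw [Set.mem_smul_set_iff_inv_smul_mem₀ (by norm_num : (2 : ℝ) ≠ 0)]
    simp only [Set.mem_setOf_eq, hh_smul]
    rw [abs_of_pos (by norm_num : (0 : ℝ) < 2⁻¹)]
    constructor <;> intro h <;> linarith
  have hpos : 0 < volume {x : Fin m → ℝ | hh q x / 2 < 1} := by
    refine IsOpen.measure_pos _ (isOpen_lt ((hh_cont q).div_const 2) continuous_const) ⟨0, ?_⟩
    simp [h0]
  have hint : Integrable fun z => Real.exp (-(hh q z / 2)) := by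
    by_contra hni
    rw [hv, integral_undef hni] at hpos
    simp at hpos
  rw [← ofReal_integral_eq_lintegral_ofReal hint
    (Filter.Eventually.of_forall fun z => (Real.exp_pos _).le)]
  have hf : (0 : ℝ) < m.factorial := by exact_mod_cast Nat.factorial_pos m
  have e1 : ENNReal.ofReal (∫ z, Real.exp (-(hh q z / 2))) =
      volume {x : Fin m → ℝ | hh q x / 2 < 1} * m.factorial := by
    rw [hv, ← ENNReal.ofReal_natCast, ← ENNReal.ofReal_mul' hf.le, div_mul_cancel₀ _ hf.ne']
  rw [e1, hset, Measure.addHaar_smul]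
  simp only [Module.finrank_fin_fun]
  rw [abs_of_pos (by positivity)]
  ring

end sym

end BM

open BM in
theorem bm (h1 : IdSt) (h2 : DerSt) : BMSt := by
  intro m K _ _ q hq Q hQ
  change ∀ x, ‖x‖ ≤ hh q x at hq
  change _ ≤ 3 * volume Q * m.factorial * volume {x | hh q x < 1}
  set β : ℝ := (Fintype.card (K × Bool) : ℝ) with hβ
  have hβ0 : 0 < β := by simp only [hβ]; exact_mod_cast Fintype.card_pos
  have hlow : ∀ x, hh q x - 1 ≤ ∑ i, x i * gr β (pp q) x i := hh_lower q
  have hI := h1 m (K × Bool) β (pp q) fun x => (sub_le_sub_right (hq x) 1).trans (hlow x)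
  set φ : (Fin m → ℝ) × (Fin m → ℝ) → ENNReal := fun v =>
    (3 * ENNReal.ofReal (Real.exp (-(hh q (v.1 - v.2) / 2)))) *
      ENNReal.ofReal |(hs β (pp q) v.1 + hs β (pp q) v.2).det| with hφ
  have hcd : Continuous fun v : (Fin m → ℝ) × (Fin m → ℝ) =>
      |(hs β (pp q) v.1 + hs β (pp q) v.2).det| :=
    (((cont_hs β (pp q)).comp continuous_fst).add
      ((cont_hs β (pp q)).comp continuous_snd)).matrix_det.abs
  have hce : Continuous fun z : Fin m → ℝ => Real.exp (-(hh q z / 2)) :=
    Real.continuous_exp.comp ((hh_cont q).div_const 2).neg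
  have hφm : Measurable φ := by
    refine Measurable.mul (Measurable.const_mul ?_ 3) hcd.measurable.ennreal_ofReal
    exact (hce.comp (continuous_fst.sub continuous_snd)).measurable.ennreal_ofReal
  have hb : ∀ v : (Fin m → ℝ) × (Fin m → ℝ), ENNReal.ofReal
      (Real.exp (-(∑ i, v.1 i * gr β (pp q) v.1 i + ∑ i, v.2 i * gr β (pp q) v.2 i) / 2) *
        |(hs β (pp q) v.1 + hs β (pp q) v.2).det|) ≤ φ v := by
    intro v
    simp only [hφ]
    rw [ENNReal.ofReal_mul (Real.exp_pos _).le]
    refine mul_le_mul_left ?_ _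
    have t1 : hh q (v.1 - v.2) ≤ hh q v.1 + hh q v.2 := by
      have := hh_add q v.1 (-v.2)
      rwa [hh_neg, ← sub_eq_add_neg] at this
    have t2 : Real.exp (-(∑ i, v.1 i * gr β (pp q) v.1 i + ∑ i, v.2 i * gr β (pp q) v.2 i) / 2)
        ≤ 3 * Real.exp (-(hh q (v.1 - v.2) / 2)) := by
      calc _ ≤ Real.exp (1 + -(hh q (v.1 - v.2) / 2)) := by
            apply Real.exp_le_exp.2
            have := hlow v.1
            have := hlow v.2
            linarith
        _ = Real.exp 1 * Real.exp (-(hh q (v.1 - v.2) / 2)) := Real.exp_add _ _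
        _ ≤ _ := mul_le_mul_of_nonneg_right
            (Real.exp_one_lt_d9.le.trans (by norm_num)) (Real.exp_pos _).le
    refine (ENNReal.ofReal_le_ofReal t2).trans (le_of_eq ?_)
    rw [ENNReal.ofReal_mul (by norm_num)]
    simp
  have hT : ∫⁻ v, φ v = ∫⁻ z, ∫⁻ y, φ (y + z, y) := by
    rw [Measure.volume_eq_prod, lintegral_prod_symm' φ hφm]
    have : ∀ y, ∫⁻ x, φ (x, y) = ∫⁻ z, φ (y + z, y) := fun y =>
      (lintegral_add_left_eq_self (fun x => φ (x, y)) y).symm
    simp only [this]
    refine lintegral_lintegral_swap ?_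
    exact (hφm.comp ((measurable_fst.add measurable_snd).prodMk measurable_fst)).aemeasurable
  have hS : ∀ z, ∫⁻ y, φ (y + z, y) ≤
      ENNReal.ofReal (Real.exp (-(hh q z / 2))) * (3 * (ENNReal.ofReal (2 ^ m) * volume Q)) := by
    intro z
    simp only [hφ, add_sub_cancel_left]
    rw [lintegral_const_mul' _ _ (ENNReal.mul_ne_top (by simp) ENNReal.ofReal_ne_top)]
    calc _ ≤ 3 * ENNReal.ofReal (Real.exp (-(hh q z / 2))) *
          (ENNReal.ofReal (2 ^ m) * volume Q) :=
          mul_le_mul_right (slice h2 q hq Q hQ β hβ0 z) _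
      _ = _ := by ring
  have hfin : ENNReal.ofReal ((4 * Real.pi) ^ m) ≤
      ENNReal.ofReal (4 ^ m) * (3 * volume Q * m.factorial * volume {x | hh q x < 1}) := by
    calc _ ≤ _ := hI
      _ ≤ ∫⁻ v, φ v := lintegral_mono hb
      _ = _ := hT
      _ ≤ ∫⁻ z, ENNReal.ofReal (Real.exp (-(hh q z / 2))) *
            (3 * (ENNReal.ofReal (2 ^ m) * volume Q)) := lintegral_mono hS
      _ = (∫⁻ z, ENNReal.ofReal (Real.exp (-(hh q z / 2)))) *
            (3 * (ENNReal.ofReal (2 ^ m) * volume Q)) :=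
          lintegral_mul_const _ hce.measurable.ennreal_ofReal
      _ = _ := by
          rw [gam q hq]
          have : ENNReal.ofReal ((4 : ℝ) ^ m) =
              ENNReal.ofReal (2 ^ m) * ENNReal.ofReal (2 ^ m) := by
            rw [← ENNReal.ofReal_mul (by positivity), ← mul_pow]; norm_num
          rw [this]; ring
  rw [mul_pow, ENNReal.ofReal_mul (by positivity)] at hfin
  exact (ENNReal.mul_le_mul_iff_right (by simp) ENNReal.ofReal_ne_top).1 hfin

end Pool.Agent.H157Z.Zon
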