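import Pool.Agent.H157Z.Zon.Spec

set_option autoImplicit false
set_option maxHeartbeats 400000

namespace Pool.Agent.H157Z.Zon

open Finset

namespace Cover

theorem third : (1 / 3 : ℝ) ≤ Real.exp (-1) := by
  rw [Real.exp_neg, one_div]
  apply inv_anti₀ (Real.exp_pos 1)
  have := Real.exp_one_lt_d9
  linarith

theorem log_sub_le (a b : ℝ) (ha : 1 / 3 ≤ a) (hb : 1 / 3 ≤ b) :
    Real.log a - Real.log b ≤ 3 * |a - b| := by
  have ha0 : 0 < a := by linarith
  have hb0 : 0 < b := by linarith
  rw [← Real.log_div ha0.ne' hb0.ne']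
  have h1 := Real.log_le_sub_one_of_pos (div_pos ha0 hb0)
  have h2 : a / b - 1 ≤ 3 * |a - b| := by
    rw [sub_le_iff_le_add, div_le_iff₀ hb0]
    have h3 := le_abs_self (a - b)
    have h4 := abs_nonneg (a - b)
    nlinarith
  linarith

theorem key (t u : ℝ) (ht : t ≤ 1) :
    |t + Real.log (max u (Real.exp (-1)))| ≤ 3 * |Real.exp (-t) - u| := by
  have ha : Real.exp (-1) ≤ Real.exp (-t) := Real.exp_le_exp.2 (by linarith)
  have hb : Real.exp (-1) ≤ max u (Real.exp (-1)) := le_max_right _ _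
  have h1 := log_sub_le _ _ (third.trans ha) (third.trans hb)
  have h2 := log_sub_le _ _ (third.trans hb) (third.trans ha)
  rw [Real.log_exp] at h1 h2
  rw [abs_sub_comm] at h2
  have h3 : |Real.exp (-t) - max u (Real.exp (-1))| ≤ |Real.exp (-t) - u| := by
    rcases le_total u (Real.exp (-1)) with h | h
    · rw [max_eq_right h, abs_of_nonneg (by linarith), abs_of_nonneg (by linarith)]
      linarith
    · rw [max_eq_left h]
  rw [abs_le]
  constructor <;> linarith

end Cover

theorem cover (h1 : NetSt) (h2 : MultiSt) (h3 : SampleSt) : CoverSt := by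
  classical
  intro m n L V hm hn hV r
  have hm0 : (0 : ℝ) < m := by exact_mod_cast hm
  set yb : Fin m → ℝ := fun i => ((r i : ℝ) + 1) * 500 / m with hyb
  have hyb0 : ∀ i, 0 < yb i := fun i => by simp only [hyb]; positivity
  let D : (Fin m → ℝ) →ₗ[ℝ] (Fin m → ℝ) :=
    LinearMap.pi fun i => (yb i)⁻¹ • LinearMap.proj i
  have hD : ∀ v i, D v i = (yb i)⁻¹ * v i := fun v i => rfl
  have hW : Module.finrank ℝ (V.map D) ≤ n := (Submodule.finrank_map_le D V).trans hV
  obtain ⟨U, hU, hU2⟩ := h2 m n (V.map D) (h1 m n (V.map D) hn hW) L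
  refine ⟨U.image (fun u i => - yb i * Real.log (max (u i) (Real.exp (-1)))), ?_, ?_⟩
  · refine le_trans ?_ hU
    exact_mod_cast card_image_le
  · rintro y ⟨J, hJ, v, hv, hy, -⟩ hyr
    have hs : ∀ i, ∑ j, |D (v j) i| = y i / yb i := by
      intro i
      rw [hy i, div_eq_inv_mul, mul_sum]
      refine sum_congr rfl fun j _ => ?_
      rw [hD, abs_mul, abs_of_pos (inv_pos.2 (hyb0 i))]
    have ht : ∀ i, y i / yb i ≤ 1 := fun i => (div_le_one (hyb0 i)).2 (hyr i)
    obtain ⟨c, hc1, hc2⟩ := h3 m J (fun j => D (v j)) (fun i => by rw [hs]; exact ht i) (4 ^ L)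
      (by positivity)
    have hξ : ∀ k i, (∑ j, c k j • D (v j)) i = ∑ j, c k j * D (v j) i := by
      intro k i
      simp [Finset.sum_apply]
    obtain ⟨u, hu, hu2⟩ := hU2 (4 ^ L) (fun k => ∑ j, c k j • D (v j)) (by positivity)
      (fun k => Submodule.sum_mem _ fun j _ =>
        Submodule.smul_mem _ _ (Submodule.mem_map_of_mem (hv j)))
      (by simpa only [hξ] using hc1)
    simp only [hξ] at hu2
    simp only [hs] at hc2
    have hsq : √(((4 ^ L : ℕ) : ℝ)) = 2 ^ L := by
      rw [Real.sqrt_eq_iff_mul_self_eq (by positivity) (by positivity), ← mul_pow]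
      push_cast
      norm_num
    rw [hsq] at hc2
    have hsum : ∑ i, |Real.exp (-(y i / yb i)) - u i| ≤ 25 * m / 2 ^ L := by
      have h4 : ∑ i, |Real.exp (-(y i / yb i)) - u i| ≤
          ∑ i, (|Real.exp (-(y i / yb i)) -
            (∑ k, Real.cos (∑ j, c k j * D (v j) i)) / ((4 ^ L : ℕ) : ℝ)| +
            |(∑ k, Real.cos (∑ j, c k j * D (v j) i)) / ((4 ^ L : ℕ) : ℝ) - u i|) :=
        sum_le_sum fun i _ => abs_sub_le _ _ _
      rw [sum_add_distrib] at h4
      have h5 : (25 : ℝ) * m / 2 ^ L = 3 * m / 2 ^ L + 22 * m / 2 ^ L := by ring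
      rw [h5]
      linarith
    refine ⟨_, mem_image_of_mem _ hu, ?_⟩
    have h6 : ∀ i, |y i - - yb i * Real.log (max (u i) (Real.exp (-1)))| / ((r i : ℝ) + 1) ≤
        1500 / m * |Real.exp (-(y i / yb i)) - u i| := by
      intro i
      have hr : (0 : ℝ) < (r i : ℝ) + 1 := by positivity
      have h7 : y i - - yb i * Real.log (max (u i) (Real.exp (-1))) =
          yb i * (y i / yb i + Real.log (max (u i) (Real.exp (-1)))) := by
        have := (hyb0 i).ne'
        field_simp
        ring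
      rw [h7, abs_mul, abs_of_pos (hyb0 i), div_le_iff₀ hr]
      have h8 := Cover.key (y i / yb i) (u i) (ht i)
      have h9 : 1500 / m * |Real.exp (-(y i / yb i)) - u i| * ((r i : ℝ) + 1) =
          yb i * (3 * |Real.exp (-(y i / yb i)) - u i|) := by
        rw [show yb i = ((r i : ℝ) + 1) * 500 / m from rfl]
        ring
      rw [h9]
      exact mul_le_mul_of_nonneg_left h8 (hyb0 i).le
    refine le_trans (sum_le_sum fun i _ => h6 i) ?_
    rw [← mul_sum]
    refine le_trans (mul_le_mul_of_nonneg_left hsum (by positivity)) ?_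
    have h10 : (1500 : ℝ) / m * (25 * m / 2 ^ L) = 37500 / 2 ^ L := by
      field_simp
      norm_num
    rw [h10]
    exact div_le_div_of_nonneg_right (by norm_num) (by positivity)

end Pool.Agent.H157Z.Zon
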