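import Pool.Agent.H157Z.Zon.Spec

set_option autoImplicit false

/-! Iteration of the halving step. -/

namespace Pool.Agent.H157Z.Zon

open Finset

namespace Iter

/-- removing the rows with sign minus one and doubling those with sign one -/
theorem drop {m d : ℕ} (A : Matrix (Fin m) (Fin d) ℝ) (s : Fin m → ℝ)
    (hs : ∀ i, s i = 0 ∨ s i = 1 ∨ s i = -1)
    (hc : m ≤ 40 * (univ.filter (fun i => s i = -1)).card) :
    ∃ m' : ℕ, 40 * m' ≤ 39 * m ∧ ∃ B : Matrix (Fin m') (Fin d) ℝ, ∀ x : Fin d → ℝ,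
      ∑ j, |B.mulVec x j| = ∑ i, |A.mulVec x i| + ∑ i, s i * |A.mulVec x i| := by
  classical
  set T : Finset (Fin m) := univ.filter (fun i => ¬ s i = -1) with hT
  have hcard : (univ.filter (fun i => s i = -1)).card + T.card = m := by
    rw [hT, Finset.card_filter_add_card_filter_not, Finset.card_univ, Fintype.card_fin]
  refine ⟨T.card, by omega, fun j k => (1 + s (T.equivFin.symm j)) * A (T.equivFin.symm j) k,
    fun x => ?_⟩
  have h1 : ∀ i, 0 ≤ 1 + s i := fun i => by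
    rcases hs i with h | h | h <;> rw [h] <;> norm_num
  have h2 : ∀ j : Fin T.card, |Matrix.mulVec
      (fun j k => (1 + s (T.equivFin.symm j)) * A (T.equivFin.symm j) k) x j|
      = (fun i : T => (1 + s i) * |A.mulVec x i|) (T.equivFin.symm j) := fun j => by
    simp only [Matrix.mulVec, dotProduct, mul_assoc, ← Finset.mul_sum]
    rw [abs_mul, abs_of_nonneg (h1 _)]
  rw [Finset.sum_congr rfl fun j _ => h2 j,
    Equiv.sum_comp T.equivFin.symm (fun i : T => (1 + s i) * |A.mulVec x i|),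
    Finset.sum_coe_sort T (fun i => (1 + s i) * |A.mulVec x i|), ← Finset.sum_add_distrib,
    hT, Finset.sum_filter]
  refine Finset.sum_congr rfl fun i _ => ?_
  by_cases h : s i = -1
  · rw [if_neg (not_not.2 h), h]; ring
  · rw [if_pos h]; ring

theorem step {C : ℝ}
    (h : ∀ (m n : ℕ) (V : Submodule ℝ (Fin m → ℝ)), 1 ≤ n → Module.finrank ℝ V ≤ n →
      C * n ≤ m → ∃ s : Fin m → ℝ, (∀ i, s i = 0 ∨ s i = 1 ∨ s i = -1) ∧
        m ≤ 20 * (univ.filter (fun i => s i ≠ 0)).card ∧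
        ∀ v ∈ V, abs (∑ i, s i * |v i|) ≤ C * √((n : ℝ) / m) * ∑ i, |v i|)
    {m d : ℕ} (hd : 1 ≤ d) (hm : C * d ≤ m) (A : Matrix (Fin m) (Fin d) ℝ) :
    ∃ m' : ℕ, 40 * m' ≤ 39 * m ∧ ∃ B : Matrix (Fin m') (Fin d) ℝ, ∀ x : Fin d → ℝ,
      abs (∑ j, |B.mulVec x j| - ∑ i, |A.mulVec x i|)
        ≤ C * √((d : ℝ) / m) * ∑ i, |A.mulVec x i| := by
  classical
  have hr : Module.finrank ℝ (LinearMap.range (Matrix.toLin' A)) ≤ d := by
    have := LinearMap.finrank_range_le (Matrix.toLin' A)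
    simpa using this
  obtain ⟨s, hs, hc, hv⟩ := h m d _ hd hr hm
  have hv' : ∀ x : Fin d → ℝ, abs (∑ i, s i * |A.mulVec x i|)
      ≤ C * √((d : ℝ) / m) * ∑ i, |A.mulVec x i| := fun x =>
    hv _ ⟨x, Matrix.toLin'_apply A x⟩
  have hsub : univ.filter (fun i => s i ≠ 0) ⊆
      univ.filter (fun i => s i = -1) ∪ univ.filter (fun i => - s i = -1) := by
    intro i hi
    have h0 : s i ≠ 0 := (Finset.mem_filter.1 hi).2
    rcases hs i with h | h | h
    · exact absurd h h0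
    · exact Finset.mem_union_right _ (Finset.mem_filter.2 ⟨mem_univ _, by rw [h]⟩)
    · exact Finset.mem_union_left _ (Finset.mem_filter.2 ⟨mem_univ _, h⟩)
  have hle := (Finset.card_le_card hsub).trans (Finset.card_union_le _ _)
  by_cases hc1 : m ≤ 40 * (univ.filter (fun i => s i = -1)).card
  · obtain ⟨m', hm', B, hB⟩ := drop A s hs hc1
    refine ⟨m', hm', B, fun x => ?_⟩
    rw [hB x, add_sub_cancel_left]
    exact hv' x
  · have hs' : ∀ i, - s i = 0 ∨ - s i = 1 ∨ - s i = -1 := fun i => by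
      rcases hs i with h | h | h <;> rw [h] <;> norm_num
    obtain ⟨m', hm', B, hB⟩ := drop A (fun i => - s i) hs' (by omega)
    refine ⟨m', hm', B, fun x => ?_⟩
    rw [hB x, add_sub_cancel_left]
    have : ∑ i, - s i * |A.mulVec x i| = - ∑ i, s i * |A.mulVec x i| := by
      rw [← Finset.sum_neg_distrib]
      exact Finset.sum_congr rfl fun i _ => by ring
    rw [this, abs_neg]
    exact hv' x

theorem exp_low {δ : ℝ} (h0 : 0 ≤ δ) (h1 : δ ≤ 1 / 2) : Real.exp (-(2 * δ)) ≤ 1 - δ := by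
  have h2 := Real.add_one_le_exp (2 * δ)
  have h3 : Real.exp (-(2 * δ)) * Real.exp (2 * δ) = 1 := by
    rw [← Real.exp_add]; simp
  have h4 := Real.exp_pos (-(2 * δ))
  have h5 : Real.exp (-(2 * δ)) * (2 * δ + 1) ≤ 1 := by
    calc Real.exp (-(2 * δ)) * (2 * δ + 1) ≤ Real.exp (-(2 * δ)) * Real.exp (2 * δ) :=
          mul_le_mul_of_nonneg_left h2 h4.le
      _ = 1 := h3
  have h6 : 1 ≤ (1 - δ) * (2 * δ + 1) := by nlinarith
  exact le_of_mul_le_mul_right (h5.trans h6) (by linarith)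

theorem sqrt_mono {d : ℝ} (hd : 0 ≤ d) {a b : ℝ} (ha : 0 < a) (hab : a ≤ b) :
    √(d / b) ≤ √(d / a) :=
  Real.sqrt_le_sqrt (div_le_div_of_nonneg_left hd ha hab)

theorem sqrt_gain {d : ℝ} (hd : 0 ≤ d) {a b : ℝ} (ha : 0 < a) (hab : 40 * a ≤ 39 * b) :
    101 / 100 * √(d / b) ≤ √(d / a) := by
  have hb : 0 < b := by linarith
  have h1 : (101 / 100 : ℝ) * √(d / b) = √((101 / 100) ^ 2 * (d / b)) := by
    rw [Real.sqrt_mul (by positivity), Real.sqrt_sq (by norm_num)]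
  rw [h1]
  refine Real.sqrt_le_sqrt ?_
  rw [← mul_div_assoc, div_le_div_iff₀ hb ha]
  nlinarith [mul_nonneg hd ha.le]

theorem main {C : ℝ} (hC : 0 < C) {d N : ℕ} (hN : 0 < N) (hCN : C * d ≤ N)
    (hδ : C * √((d : ℝ) / N) ≤ 1 / 2)
    (h : ∀ {m : ℕ}, C * d ≤ m → ∀ A : Matrix (Fin m) (Fin d) ℝ,
      ∃ m' : ℕ, 40 * m' ≤ 39 * m ∧ ∃ B : Matrix (Fin m') (Fin d) ℝ, ∀ x : Fin d → ℝ,
        abs (∑ j, |B.mulVec x j| - ∑ i, |A.mulVec x i|)
          ≤ C * √((d : ℝ) / m) * ∑ i, |A.mulVec x i|) (m : ℕ) :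
    ∀ A : Matrix (Fin m) (Fin d) ℝ, ∃ n : ℕ, n ≤ N ∧ ∃ (B : Matrix (Fin n) (Fin d) ℝ) (E : ℝ),
      (m ≤ N → E ≤ 0) ∧
      (N < m → E ≤ 400 * C * √((d : ℝ) / N) - 200 * C * √((d : ℝ) / m)) ∧
      ∀ x : Fin d → ℝ, Real.exp (-E) * ∑ i, |A.mulVec x i| ≤ ∑ j, |B.mulVec x j| ∧
        ∑ j, |B.mulVec x j| ≤ Real.exp E * ∑ i, |A.mulVec x i| := by
  induction m using Nat.strong_induction_on with
  | _ m ih =>
    intro A
    by_cases hm : m ≤ N
    · exact ⟨m, hm, A, 0, fun _ => le_rfl, fun h' => absurd hm (by omega), fun x => by simp⟩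
    have hm' : N < m := by omega
    have hNr : (0 : ℝ) < N := by exact_mod_cast hN
    have hNm : (N : ℝ) ≤ m := by exact_mod_cast hm'.le
    have hd0 : (0 : ℝ) ≤ d := Nat.cast_nonneg d
    obtain ⟨m', hlt, A', hA'⟩ := h (hCN.trans hNm) A
    obtain ⟨n, hn, B, E, hE1, hE2, hB⟩ := ih m' (by omega) A'
    have ht : √((d : ℝ) / m) ≤ √((d : ℝ) / N) := sqrt_mono hd0 hNr hNm
    have ht0 : 0 ≤ √((d : ℝ) / m) := Real.sqrt_nonneg _
    set δ := C * √((d : ℝ) / m) with hδdef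
    have hδ0 : 0 ≤ δ := mul_nonneg hC.le ht0
    have hδN : δ ≤ C * √((d : ℝ) / N) := mul_le_mul_of_nonneg_left ht hC.le
    have hδ1 : δ ≤ 1 / 2 := hδN.trans hδ
    refine ⟨n, hn, B, E + 2 * δ, fun h' => absurd h' hm, fun _ => ?_, fun x => ?_⟩
    · by_cases h1 : m' ≤ N
      · have := hE1 h1
        nlinarith
      · have h2 := hE2 (by omega)
        have hm0 : (0 : ℝ) < m' := by exact_mod_cast (show 0 < m' by omega)
        have h3 := sqrt_gain hd0 hm0 (b := m) (by exact_mod_cast hlt)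
        have h4 := mul_le_mul_of_nonneg_left h3 hC.le
        nlinarith
    · obtain ⟨b1, b2⟩ := hB x
      have a := abs_le.1 (hA' x)
      have hS : 0 ≤ ∑ i, |A.mulVec x i| := Finset.sum_nonneg fun i _ => abs_nonneg _
      have e1 := exp_low hδ0 hδ1
      have e2 : 1 + δ ≤ Real.exp (2 * δ) := by
        have := Real.add_one_le_exp (2 * δ)
        linarith
      constructor
      · refine le_trans ?_ b1
        rw [neg_add, Real.exp_add, mul_assoc]
        refine mul_le_mul_of_nonneg_left ?_ (Real.exp_pos _).le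
        have := mul_le_mul_of_nonneg_right e1 hS
        linarith [a.1]
      · refine b2.trans ?_
        rw [Real.exp_add, mul_assoc]
        refine mul_le_mul_of_nonneg_left ?_ (Real.exp_pos _).le
        have := mul_le_mul_of_nonneg_right e2 hS
        linarith [a.2]

end Iter

theorem iter (h : StepSt) : FinalSt := by
  obtain ⟨C, hC, h⟩ := h
  refine ⟨(1600 * C) ^ 2 + C + 1, by positivity, fun d m _ A ε hε hε2 => ?_⟩
  rcases Nat.eq_zero_or_pos d with rfl | hd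
  · refine ⟨0, by simp, 0, fun x => ?_⟩
    simp [Matrix.mulVec, dotProduct]
  have hd1 : (1 : ℝ) ≤ d := by exact_mod_cast hd
  have hε1 : ε ^ 2 ≤ 1 := by nlinarith
  have hε0 : 0 < ε ^ 2 := by positivity
  set R : ℝ := ((1600 * C) ^ 2 + C) * d / ε ^ 2 with hR
  have hR0 : 0 < R := by positivity
  set N : ℕ := ⌈R⌉₊ with hNdef
  have hRN : R ≤ N := Nat.le_ceil R
  have hNR : (N : ℝ) < R + 1 := Nat.ceil_lt_add_one hR0.le
  have hN : 0 < N := Nat.ceil_pos.2 hR0
  have hNr : (0 : ℝ) < N := by exact_mod_cast hN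
  have hRe : ((1600 * C) ^ 2 + C) * d ≤ N * ε ^ 2 := by
    rw [hR, div_le_iff₀ hε0] at hRN; exact hRN
  have hp1 : 0 ≤ (1600 * C) ^ 2 * d := by positivity
  have hp2 : 0 ≤ C * d := by positivity
  have hCN : C * d ≤ N := by nlinarith
  have hs : 1600 * C * √((d : ℝ) / N) ≤ ε := by
    have h1 : 1600 * C * √((d : ℝ) / N) = √((1600 * C) ^ 2 * (d / N)) := by
      rw [Real.sqrt_mul (by positivity), Real.sqrt_sq (by positivity)]
    rw [h1, Real.sqrt_le_left hε.le, ← mul_div_assoc, div_le_iff₀ hNr]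
    nlinarith
  have hδ : C * √((d : ℝ) / N) ≤ 1 / 2 := by nlinarith
  obtain ⟨n, hn, B, E, hE1, hE2, hB⟩ :=
    Iter.main hC hN hCN hδ (fun hm A => Iter.step h hd hm A) m A
  have hE : E ≤ ε / 4 := by
    by_cases hm : m ≤ N
    · have := hE1 hm
      linarith
    · have h1 := hE2 (by omega)
      have h2 : 0 ≤ C * √((d : ℝ) / m) := by positivity
      nlinarith
  have hexp : Real.exp (E + E) ≤ 1 + ε := by
    have h1 : Real.exp (E + E) ≤ Real.exp (ε / 2) := Real.exp_le_exp.2 (by linarith)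
    have h2 := Real.add_one_le_exp (-(ε / 2))
    have h3 : Real.exp (ε / 2) * Real.exp (-(ε / 2)) = 1 := by
      rw [← Real.exp_add]; simp
    have h4 := Real.exp_pos (ε / 2)
    have h5 : Real.exp (ε / 2) * (-(ε / 2) + 1) ≤ 1 := by
      calc Real.exp (ε / 2) * (-(ε / 2) + 1) ≤ Real.exp (ε / 2) * Real.exp (-(ε / 2)) :=
            mul_le_mul_of_nonneg_left h2 h4.le
        _ = 1 := h3
    have h6 : 1 ≤ (1 + ε) * (-(ε / 2) + 1) := by nlinarith
    exact h1.trans (le_of_mul_le_mul_right (h5.trans h6) (by linarith))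
  refine ⟨n, ?_, Real.exp (-E) • B, fun x => ?_⟩
  · have h1 : (n : ℝ) ≤ N := by exact_mod_cast hn
    have h2 : 1 ≤ (d : ℝ) / ε ^ 2 := by
      rw [le_div_iff₀ hε0]; linarith
    have h3 : ((1600 * C) ^ 2 + C + 1) * d / ε ^ 2 = R + d / ε ^ 2 := by
      rw [hR]; ring
    rw [h3]; linarith
  · obtain ⟨b1, b2⟩ := hB x
    have hsm : ∑ i, |(Real.exp (-E) • B).mulVec x i| = Real.exp (-E) * ∑ j, |B.mulVec x j| := by
      rw [Finset.mul_sum]
      refine Finset.sum_congr rfl fun j _ => ?_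
      rw [Matrix.smul_mulVec, Pi.smul_apply, smul_eq_mul, abs_mul, abs_of_pos (Real.exp_pos _)]
    have hS : 0 ≤ ∑ j, |B.mulVec x j| := Finset.sum_nonneg fun i _ => abs_nonneg _
    have hee : Real.exp E * Real.exp (-E) = 1 := by
      rw [← Real.exp_add]; simp
    have hpos := Real.exp_pos E
    have hneg := Real.exp_pos (-E)
    rw [hsm]
    constructor
    · calc Real.exp (-E) * ∑ j, |B.mulVec x j|
          ≤ Real.exp (-E) * (Real.exp E * ∑ i, |A.mulVec x i|) :=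
            mul_le_mul_of_nonneg_left b2 hneg.le
        _ = ∑ i, |A.mulVec x i| := by rw [← mul_assoc, mul_comm (Real.exp (-E)), hee, one_mul]
    · calc ∑ i, |A.mulVec x i| = Real.exp E * (Real.exp (-E) * ∑ i, |A.mulVec x i|) := by
            rw [← mul_assoc, hee, one_mul]
        _ ≤ Real.exp E * ∑ j, |B.mulVec x j| := mul_le_mul_of_nonneg_left b1 hpos.le
        _ = Real.exp (E + E) * (Real.exp (-E) * ∑ j, |B.mulVec x j|) := by
            rw [Real.exp_add, mul_assoc, ← mul_assoc (Real.exp E) (Real.exp (-E)), hee, one_mul]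
        _ ≤ (1 + ε) * (Real.exp (-E) * ∑ j, |B.mulVec x j|) :=
            mul_le_mul_of_nonneg_right hexp (mul_nonneg hneg.le hS)

end Pool.Agent.H157Z.Zon
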