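import Pool.Agent.H157Z.Zon.Spec

set_option autoImplicit false

namespace Pool.Agent.H157Z.Zon

open Finset

namespace Multi

lemma maurey {m K : ℕ} (hK : 0 < K) (D : Fin K → Fin m → ℝ) (sig : ℝ)
    (h : ∑ k, ∑ i, D k i ^ 2 ≤ K * sig) (N : ℕ) :
    ∃ f : Fin N → Fin K, ∑ i, (∑ j, (D (f j) i - (∑ k, D k i) / K)) ^ 2 ≤ N * sig := by
  have hK' : (0 : ℝ) < K := by exact_mod_cast hK
  induction N with
  | zero => exact ⟨Fin.elim0, by simp⟩
  | succ N ih =>
    obtain ⟨f, hf⟩ := ih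
    set e : Fin m → ℝ := fun i => ∑ j, (D (f j) i - (∑ k, D k i) / K) with he
    have h1 : ∀ i, ∑ k, (D k i - (∑ k, D k i) / K + e i) ^ 2 ≤ K * e i ^ 2 + ∑ k, D k i ^ 2 := by
      intro i
      set μ := (∑ k, D k i) / K with hμ
      have h2 : ∑ k, D k i = K * μ := by rw [hμ]; field_simp
      have h3 : ∀ k, (D k i - μ + e i) ^ 2 = (e i - μ) ^ 2 + 2 * (e i - μ) * D k i + D k i ^ 2 := by
        intro k; ring
      simp only [h3, sum_add_distrib, ← mul_sum, h2, sum_const, card_univ, Fintype.card_fin,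
        nsmul_eq_mul]
      nlinarith [mul_nonneg hK'.le (sq_nonneg μ)]
    have h2 : ∑ k : Fin K, ∑ i, (D k i - (∑ k, D k i) / K + e i) ^ 2 ≤
        ∑ _k : Fin K, ((N + 1 : ℕ) : ℝ) * sig := by
      rw [sum_comm]
      refine (sum_le_sum fun i _ => h1 i).trans ?_
      rw [sum_add_distrib, ← mul_sum, sum_comm (f := fun i k => D k i ^ 2)]
      simp only [sum_const, card_univ, Fintype.card_fin, nsmul_eq_mul]
      push_cast
      nlinarith [mul_le_mul_of_nonneg_left hf hK'.le]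
    have : Nonempty (Fin K) := ⟨⟨0, hK⟩⟩
    obtain ⟨k, -, hk⟩ := exists_le_of_sum_le univ_nonempty h2
    refine ⟨Fin.cons k f, ?_⟩
    simpa only [Fin.sum_univ_succ, Fin.cons_zero, Fin.cons_succ] using hk

lemma l1_le {m : ℕ} (a : Fin m → ℝ) (B : ℝ) (hB : 0 ≤ B) (h : m * ∑ i, a i ^ 2 ≤ B ^ 2) :
    ∑ i, |a i| ≤ B := by
  have h1 := sq_sum_le_card_mul_sum_sq (s := univ) (f := fun i => |a i|)
  simp only [card_univ, Fintype.card_fin, sq_abs] at h1
  exact (abs_le_of_sq_le_sq' (h1.trans h) hB).2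

end Multi

theorem multi : MultiSt := by
  classical
  intro m n S hG L
  have hG' : ∀ l : ℕ, ∃ G : Finset (Fin m → ℝ), (G.card : ℝ) ≤ Real.exp ((5 + 16 * l) * n) ∧
      (l = 0 → G = {0}) ∧ ∀ ξ ∈ S, ∃ g ∈ G,
        ∑ i, (Real.cos (ξ i) - g i) ^ 2 ≤ 4 * (1 / 16) ^ l * (m + ∑ i, √|ξ i|) := by
    intro l
    rcases Nat.eq_zero_or_pos l with rfl | hl
    · refine ⟨{0}, ?_, fun _ => rfl, fun ξ _ => ⟨0, mem_singleton_self _, ?_⟩⟩
      · rw [card_singleton, Nat.cast_one]
        exact Real.one_le_exp (by positivity)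
      · have h1 : ∑ i, (Real.cos (ξ i) - (0 : Fin m → ℝ) i) ^ 2 ≤ ∑ _i : Fin m, (1 : ℝ) :=
          sum_le_sum fun i _ => by simpa using Real.abs_cos_le_one _
        have h2 : 0 ≤ ∑ i, √|ξ i| := sum_nonneg fun _ _ => Real.sqrt_nonneg _
        simp only [sum_const, card_univ, Fintype.card_fin, nsmul_eq_mul, mul_one] at h1
        have : (0 : ℝ) ≤ m := Nat.cast_nonneg m
        simp only [pow_zero, mul_one]
        linarith
    · obtain ⟨G, h1, h2⟩ := hG l
      exact ⟨G, h1, fun h => by omega, h2⟩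
  choose G hG1 hG0 hG2 using hG'
  choose! g hg1 hg2 using hG2
  have hmean : ∀ (K : ℕ) (ξ : Fin K → Fin m → ℝ), (∀ k, ξ k ∈ S) →
      ∑ k, ∑ i, √|ξ k i| ≤ 6 * K * m → ∀ l,
      ∑ k, ∑ i, (Real.cos (ξ k i) - g l (ξ k) i) ^ 2 ≤ K * (28 * (1 / 16) ^ l * m) := by
    intro K ξ hS hs l
    refine (sum_le_sum fun k _ => hg2 l (ξ k) (hS k)).trans ?_
    rw [← mul_sum, sum_add_distrib]
    simp only [sum_const, card_univ, Fintype.card_fin, nsmul_eq_mul]
    have : (0 : ℝ) ≤ 4 * (1 / 16) ^ l := by positivity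
    nlinarith [mul_le_mul_of_nonneg_left hs this]
  have key : ∀ l, l ≤ L → ∃ U : Finset (Fin m → ℝ),
      (U.card : ℝ) ≤ Real.exp (64 * n * 4 ^ L * (1 - (1 / 2) ^ l)) ∧
      ∀ (K : ℕ) (ξ : Fin K → Fin m → ℝ), 0 < K → (∀ k, ξ k ∈ S) →
        ∑ k, ∑ i, √|ξ k i| ≤ 6 * K * m →
        ∃ u ∈ U, ∑ i, |(∑ k, g l (ξ k) i) / K - u i| ≤ 16 * m / 2 ^ L * (1 - (1 / 2) ^ l) := by
    intro l
    induction l with
    | zero =>
      intro _
      refine ⟨{0}, by simp, fun K ξ _ hS _ => ⟨0, mem_singleton_self _, ?_⟩⟩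
      have : ∀ k, g 0 (ξ k) = 0 := fun k => by
        have := hg1 0 (ξ k) (hS k)
        rwa [hG0 0 rfl, mem_singleton] at this
      simp [this]
    | succ l ih =>
      intro hl
      obtain ⟨U, hU1, hU2⟩ := ih (by omega)
      obtain ⟨d, hd⟩ : ∃ d, L = l + d := ⟨L - l, by omega⟩
      set N : ℕ := 4 ^ d with hN
      have hN0 : (0 : ℝ) < N := by rw [hN]; positivity
      refine ⟨(U ×ˢ Fintype.piFinset (fun _ : Fin N => G (l + 1) ×ˢ G l)).image
        (fun q => fun i => q.1 i + (∑ j, ((q.2 j).1 i - (q.2 j).2 i)) / N), ?_, ?_⟩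
      · refine le_trans (Nat.cast_le.2 card_image_le) ?_
        rw [card_product, Fintype.card_piFinset, prod_const, card_product, card_univ,
          Fintype.card_fin]
        push_cast
        have h1 := hG1 (l + 1)
        have h2 := hG1 l
        calc (U.card : ℝ) * (((G (l + 1)).card : ℝ) * (G l).card) ^ N
            ≤ Real.exp (64 * n * 4 ^ L * (1 - (1 / 2) ^ l)) *
              (Real.exp ((5 + 16 * ((l + 1 : ℕ) : ℝ)) * n) * Real.exp ((5 + 16 * l) * n)) ^ N := by
              gcongr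
          _ ≤ _ := by
              rw [← Real.exp_add, ← Real.exp_nat_mul, ← Real.exp_add]
              apply Real.exp_le_exp.2
              have h3 : l + 1 ≤ 2 ^ l := Nat.lt_two_pow_self
              have h4 : (l : ℝ) + 1 ≤ 2 ^ l := by exact_mod_cast h3
              have h5 : (4 : ℝ) ^ L * (1 / 2) ^ l = N * 2 ^ l := by
                rw [hN, hd, pow_add, show (4 : ℝ) ^ l = 2 ^ l * 2 ^ l by
                  rw [← mul_pow]; norm_num, one_div_pow]
                push_cast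
                field_simp
              have h6 : (0 : ℝ) ≤ n := Nat.cast_nonneg n
              have h7 : (0 : ℝ) ≤ N * n := by positivity
              have h8 : 64 * n * 4 ^ L * (1 - (1 / 2 : ℝ) ^ (l + 1)) =
                  64 * n * 4 ^ L * (1 - (1 / 2) ^ l) + 32 * n * (4 ^ L * (1 / 2) ^ l) := by ring
              rw [h8, h5]
              push_cast
              nlinarith [mul_le_mul_of_nonneg_left h4 h7]
      · intro K ξ hK hS hs
        have hK' : (0 : ℝ) < K := by exact_mod_cast hK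
        obtain ⟨u, hu, hu2⟩ := hU2 K ξ hK hS hs
        have h1 : ∑ k, ∑ i, (g (l + 1) (ξ k) i - g l (ξ k) i) ^ 2 ≤
            K * (64 * (1 / 16) ^ l * m) := by
          have h2 := hmean K ξ hS hs l
          have h3 := hmean K ξ hS hs (l + 1)
          have h4 : ∑ k, ∑ i, (g (l + 1) (ξ k) i - g l (ξ k) i) ^ 2 ≤
              ∑ k, ∑ i, (2 * (Real.cos (ξ k i) - g l (ξ k) i) ^ 2 +
                2 * (Real.cos (ξ k i) - g (l + 1) (ξ k) i) ^ 2) :=
            sum_le_sum fun k _ => sum_le_sum fun i _ => by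
              nlinarith [sq_nonneg (Real.cos (ξ k i) - g l (ξ k) i +
                (Real.cos (ξ k i) - g (l + 1) (ξ k) i))]
          simp only [sum_add_distrib, ← mul_sum] at h4
          have h5 : (0 : ℝ) ≤ K * ((1 / 16) ^ l * m) := by positivity
          rw [pow_succ] at h3
          nlinarith
        obtain ⟨f, hf⟩ := Multi.maurey hK (fun k i => g (l + 1) (ξ k) i - g l (ξ k) i) _ h1 N
        refine ⟨_, mem_image.2 ⟨(u, fun j => (g (l + 1) (ξ (f j)), g l (ξ (f j)))),
          mem_product.2 ⟨hu, Fintype.mem_piFinset.2 fun j =>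
            mem_product.2 ⟨hg1 _ _ (hS _), hg1 _ _ (hS _)⟩⟩, rfl⟩, ?_⟩
        have h2 := Multi.l1_le (fun i => (∑ j, (g (l + 1) (ξ (f j)) i - g l (ξ (f j)) i -
          (∑ k, (g (l + 1) (ξ k) i - g l (ξ k) i)) / K)) / N) (8 * m / 2 ^ L * (1 / 2) ^ l)
          (by positivity) (by
            simp only [div_pow, ← sum_div]
            have h3 : (8 * (m : ℝ)) ^ 2 / (2 ^ L) ^ 2 * (1 ^ l / 2 ^ l) ^ 2 =
                m * (N * (64 * (1 / 16) ^ l * m) / N ^ 2) := by
              rw [hN, hd, pow_add, one_div_pow, show (16 : ℝ) ^ l = (2 ^ l) ^ 4 by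
                rw [← pow_mul, mul_comm, pow_mul]; norm_num]
              push_cast
              rw [show (4 : ℝ) ^ d = (2 ^ d) ^ 2 by
                rw [← pow_mul, mul_comm, pow_mul]; norm_num]
              field_simp
              ring
            rw [mul_pow (8 * (m : ℝ) / 2 ^ L), div_pow (8 * (m : ℝ)), h3]
            gcongr)
        have h3 : 16 * (m : ℝ) / 2 ^ L * (1 - (1 / 2) ^ (l + 1)) =
            16 * m / 2 ^ L * (1 - (1 / 2) ^ l) + 8 * m / 2 ^ L * (1 / 2) ^ l := by ring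
        rw [h3]
        refine le_trans ?_ (add_le_add hu2 h2)
        rw [← sum_add_distrib]
        refine sum_le_sum fun i _ => le_trans (le_of_eq ?_) (abs_sub _ _)
        congr 1
        simp only [sum_sub_distrib, sum_const, card_univ, Fintype.card_fin, nsmul_eq_mul]
        field_simp
        ring
  obtain ⟨U, hU1, hU2⟩ := key L le_rfl
  have hp : (0 : ℝ) < (1 / 2) ^ L := by positivity
  refine ⟨U, hU1.trans (Real.exp_le_exp.2 ?_), fun K ξ hK hS hs => ?_⟩
  · exact mul_le_of_le_one_right (by positivity) (by linarith)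
  have hK' : (0 : ℝ) < K := by exact_mod_cast hK
  obtain ⟨u, hu, hu2⟩ := hU2 K ξ hK hS hs
  refine ⟨u, hu, ?_⟩
  have h1 := Multi.l1_le (fun i => (∑ k, (Real.cos (ξ k i) - g L (ξ k) i)) / K) (6 * m / 2 ^ L)
    (by positivity) (by
      have h2 : ∀ i, ((∑ k, (Real.cos (ξ k i) - g L (ξ k) i)) / K) ^ 2 ≤
          (∑ k, (Real.cos (ξ k i) - g L (ξ k) i) ^ 2) / K := by
        intro i
        have h3 := sq_sum_le_card_mul_sum_sq (s := univ)
          (f := fun k => Real.cos (ξ k i) - g L (ξ k) i)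
        simp only [card_univ, Fintype.card_fin] at h3
        rw [div_pow, div_le_div_iff₀ (by positivity) hK']
        nlinarith
      have h3 := sum_le_sum fun i (_ : i ∈ univ) => h2 i
      rw [← sum_div, sum_comm] at h3
      have h4 := hmean K ξ hS hs L
      rw [← div_le_iff₀' hK'] at h4
      have h5 : (1 / 16 : ℝ) ^ L ≤ (1 / 4) ^ L := by gcongr; norm_num
      have h6 : (6 * (m : ℝ) / 2 ^ L) ^ 2 = 36 * (1 / 4) ^ L * m * m := by
        rw [one_div_pow, show (4 : ℝ) ^ L = (2 ^ L) ^ 2 by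
          rw [← pow_mul, mul_comm, pow_mul]; norm_num]
        field_simp
        ring
      have h7 : (0 : ℝ) ≤ m := Nat.cast_nonneg m
      have h8 : (0 : ℝ) ≤ (1 / 16) ^ L := by positivity
      rw [h6]
      calc _ ≤ (m : ℝ) * (28 * (1 / 16) ^ L * m) := by gcongr; exact h3.trans h4
        _ ≤ m * (36 * (1 / 4) ^ L * m) := by gcongr; norm_num
        _ = _ := by ring)
  have h2 : 16 * (m : ℝ) / 2 ^ L * (1 - (1 / 2) ^ L) ≤ 16 * m / 2 ^ L :=
    mul_le_of_le_one_right (by positivity) (by linarith)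
  have h3 : 22 * (m : ℝ) / 2 ^ L = 6 * m / 2 ^ L + 16 * m / 2 ^ L := by ring
  rw [h3]
  refine le_trans ?_ (add_le_add h1 (hu2.trans h2))
  rw [← sum_add_distrib]
  refine sum_le_sum fun i _ => le_trans (le_of_eq ?_) (abs_add_le _ _)
  congr 1
  rw [sum_sub_distrib]
  ring

end Pool.Agent.H157Z.Zon
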