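import Pool.Agent.H157Z.Zon.Spec

set_option autoImplicit false

namespace Pool.Agent.H157Z.Zon

open MeasureTheory Finset
open scoped Pointwise

namespace Net

noncomputable def rho {m : ℕ} (v : Fin m → ℝ) : ℝ := ∑ i, √|v i|

theorem rho_nonneg {m : ℕ} (v : Fin m → ℝ) : 0 ≤ rho v := sum_nonneg fun _ _ => Real.sqrt_nonneg _

theorem rho_zero {m : ℕ} : rho (0 : Fin m → ℝ) = 0 := by simp [rho]

theorem rho_neg {m : ℕ} (v : Fin m → ℝ) : rho (-v) = rho v := by simp [rho]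

theorem rho_add {m : ℕ} (v w : Fin m → ℝ) : rho (v + w) ≤ rho v + rho w := by
  rw [rho, rho, rho, ← sum_add_distrib]
  refine sum_le_sum fun i _ => ?_
  refine (Real.sqrt_le_sqrt (abs_add_le (v i) (w i))).trans ?_
  rw [Real.sqrt_le_left (by positivity), add_sq, Real.sq_sqrt (abs_nonneg _),
    Real.sq_sqrt (abs_nonneg _)]
  have : 0 ≤ 2 * √|v i| * √|w i| := by positivity
  linarith

theorem rho_smul {m : ℕ} {r : ℝ} (hr : 0 ≤ r) (v : Fin m → ℝ) :
    rho ((r ^ 2) • v) = r * rho v := by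
  rw [rho, rho, mul_sum]
  refine sum_congr rfl fun i _ => ?_
  rw [Pi.smul_apply, smul_eq_mul, abs_mul, Real.sqrt_mul (abs_nonneg _),
    abs_of_nonneg (sq_nonneg r), Real.sqrt_sq hr]

theorem rho_cont {m : ℕ} : Continuous (rho : (Fin m → ℝ) → ℝ) := by
  unfold rho; fun_prop

theorem norm_le {m : ℕ} {v : Fin m → ℝ} (h : rho v < 1) : ‖v‖ ≤ 1 := by
  refine (pi_norm_le_iff_of_nonneg zero_le_one).2 fun i => ?_
  have : √|v i| ≤ rho v :=
    single_le_sum (f := fun i => √|v i|) (fun _ _ => Real.sqrt_nonneg _) (mem_univ i)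
  rw [Real.norm_eq_abs]
  by_contra hc
  have : 1 ≤ √|v i| := Real.one_le_sqrt.2 (by linarith)
  linarith

theorem max_sep {V : Type} (D : V → V → ℝ) (hs : ∀ x y, D x y = D y x) (h0 : ∀ x, D x x = 0)
    (S : Set V) {δ B : ℝ} (hδ : 0 < δ) (hB : ∀ Z : Finset V, (∀ z ∈ Z, z ∈ S) →
      (∀ z ∈ Z, ∀ z' ∈ Z, z ≠ z' → δ ≤ D z z') → (Z.card : ℝ) ≤ B) :
    ∃ Z : Finset V, (Z.card : ℝ) ≤ B ∧ ∀ x ∈ S, ∃ z ∈ Z, D x z ≤ δ := by
  classical
  let G : Set (Finset V) := {Z | (∀ z ∈ Z, z ∈ S) ∧ ∀ z ∈ Z, ∀ z' ∈ Z, z ≠ z' → δ ≤ D z z'}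
  have hne : (Finset.card '' G).Nonempty := ⟨0, ∅, ⟨by simp, by simp⟩, rfl⟩
  have hbd : BddAbove (Finset.card '' G) := ⟨⌊B⌋₊, by
    rintro _ ⟨Z, hZ, rfl⟩
    exact Nat.le_floor (hB Z hZ.1 hZ.2)⟩
  obtain ⟨Z, hZ, e⟩ := Nat.sSup_mem hne hbd
  refine ⟨Z, hB Z hZ.1 hZ.2, fun x hx => ?_⟩
  by_contra hc
  push Not at hc
  have hxZ : x ∉ Z := fun h => by have := hc x h; rw [h0] at this; linarith
  have hG : insert x Z ∈ G := by
    refine ⟨fun z hz => ?_, fun z hz z' hz' hne => ?_⟩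
    · rcases Finset.mem_insert.1 hz with rfl | h
      exacts [hx, hZ.1 z h]
    · rcases Finset.mem_insert.1 hz with rfl | h <;> rcases Finset.mem_insert.1 hz' with rfl | h'
      · exact absurd rfl hne
      · exact (hc z' h').le
      · rw [hs]; exact (hc z h).le
      · exact hZ.2 z h z' h' hne
  have := le_csSup hbd ⟨_, hG, rfl⟩
  rw [Finset.card_insert_of_notMem hxZ, ← e] at this
  omega

theorem pack {m : ℕ} (W : Submodule ℝ (Fin m → ℝ)) {R η : ℝ} (hR : 0 ≤ R) (hη : 0 < η)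
    (P : Finset W) (h1 : ∀ p ∈ P, rho (p : Fin m → ℝ) ≤ R)
    (h2 : ∀ p ∈ P, ∀ q ∈ P, p ≠ q → 2 * η ≤ rho (p.1 - q.1)) :
    (P.card : ℝ) ≤ (((R + η) / η) ^ 2) ^ Module.finrank ℝ W := by
  let μ : Measure W := (Module.finBasis ℝ W).addHaar
  let B : ℝ → Set W := fun r => {v | rho (v : Fin m → ℝ) < r}
  have hBo : ∀ r, IsOpen (B r) := fun r =>
    isOpen_lt (rho_cont.comp continuous_subtype_val) continuous_const
  have hBs : ∀ r, 0 < r → μ (B r)
      = ENNReal.ofReal ((r ^ 2) ^ Module.finrank ℝ W) * μ (B 1) := fun r hr => by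
    have e : B r = (r ^ 2) • B 1 := by
      ext v
      rw [Set.mem_smul_set_iff_inv_smul_mem₀ (by positivity), ← inv_pow]
      show _ ↔ rho ((r⁻¹ ^ 2) • (v : Fin m → ℝ)) < 1
      rw [rho_smul (by positivity), inv_mul_lt_iff₀ hr, mul_one]
      rfl
    have := Measure.addHaar_smul (E := W) μ (r ^ 2) (B 1)
    rw [abs_of_nonneg (by positivity)] at this
    rw [e]; exact this
  have hp : μ (B 1) ≠ 0 := ((hBo 1).measure_pos μ ⟨0, by simp [B, rho_zero]⟩).ne'
  have ht : μ (B 1) ≠ ⊤ := by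
    refine ((measure_mono (t := Metric.closedBall 0 1) fun v hv => ?_).trans_lt
      measure_closedBall_lt_top).ne
    rw [mem_closedBall_zero_iff]
    exact norm_le hv
  let f : W → Set W := fun p => (fun v => v + -p) ⁻¹' B η
  have hd : (P : Set W).PairwiseDisjoint f := by
    intro p hp q hq hne
    rw [Function.onFun, Set.disjoint_left]
    intro v a b
    have a' : rho (v.1 + -p.1) < η := a
    have b' : rho (v.1 + -q.1) < η := b
    have c := rho_add (-(v.1 + -p.1)) (v.1 + -q.1)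
    have e : -(v.1 + -p.1) + (v.1 + -q.1) = p.1 - q.1 := by abel
    rw [e, rho_neg] at c
    linarith [h2 p hp q hq hne]
  have hsub : (⋃ p ∈ P, f p) ⊆ B (R + η) := by
    intro v hv
    obtain ⟨p, hp, a⟩ := Set.mem_iUnion₂.1 hv
    have a' : rho (v.1 + -p.1) < η := a
    have c := rho_add (v.1 + -p.1) p.1
    rw [neg_add_cancel_right] at c
    show rho (v : Fin m → ℝ) < R + η
    linarith [h1 p hp]
  have h3 := measure_mono (μ := μ) hsub
  rw [measure_biUnion_finset hd (fun p _ =>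
    ((hBo η).preimage (continuous_id.add continuous_const)).measurableSet)] at h3
  simp only [f, measure_preimage_add_right, sum_const, nsmul_eq_mul] at h3
  rw [hBs η hη, hBs (R + η) (by linarith), ← mul_assoc, ENNReal.mul_le_mul_iff_left hp ht,
    ← ENNReal.ofReal_natCast, ← ENNReal.ofReal_mul (Nat.cast_nonneg _),
    ENNReal.ofReal_le_ofReal_iff (by positivity)] at h3
  rw [div_pow, div_pow, le_div_iff₀ (by positivity)]
  exact h3

theorem cos_sq_le (s t : ℝ) : (Real.cos s - Real.cos t) ^ 2 ≤ 4 := by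
  have := Real.cos_le_one s; have := Real.cos_le_one t
  have := Real.neg_one_le_cos s; have := Real.neg_one_le_cos t
  nlinarith

theorem cos_sq_le' (s t : ℝ) : (Real.cos s - Real.cos t) ^ 2 ≤ 4 * √|s - t| := by
  by_cases h : |s - t| ≤ 1
  · have a := Real.abs_cos_sub_cos_le s t
    have b : (Real.cos s - Real.cos t) ^ 2 ≤ |s - t| ^ 2 := by
      rw [← sq_abs]; exact pow_le_pow_left₀ (abs_nonneg _) a 2
    have c : |s - t| ≤ √|s - t| := by
      rw [Real.le_sqrt (abs_nonneg _) (abs_nonneg _)]; nlinarith [abs_nonneg (s - t)]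
    nlinarith [abs_nonneg (s - t)]
  · have c : 1 ≤ √|s - t| := Real.one_le_sqrt.2 (by linarith)
    linarith [cos_sq_le s t]

theorem count {n k l : ℕ} (hk : k ≤ n) :
    ((2 * (256 : ℝ) ^ l + 1) ^ 2) ^ k ≤ Real.exp ((5 + 16 * l) * n) := by
  have a0 : (1 : ℝ) ≤ 256 ^ l := one_le_pow₀ (by norm_num)
  have e1 : (2 : ℝ) ≤ Real.exp 1 := by linarith [Real.add_one_le_exp 1]
  have a1 : (9 : ℝ) ≤ Real.exp 5 := by
    have := pow_le_pow_left₀ (by norm_num) e1 5
    rw [← Real.exp_nat_mul] at this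
    norm_num at this; linarith
  have a2 : (256 ^ 2 : ℝ) ≤ Real.exp 16 := by
    have := pow_le_pow_left₀ (by norm_num) e1 16
    rw [← Real.exp_nat_mul] at this
    norm_num at this ⊢; linarith
  have a3 : (2 * (256 : ℝ) ^ l + 1) ^ 2 ≤ Real.exp (5 + 16 * l) := by
    rw [Real.exp_add, mul_comm (16 : ℝ), Real.exp_nat_mul]
    calc _ ≤ (3 * (256 : ℝ) ^ l) ^ 2 := pow_le_pow_left₀ (by positivity) (by linarith) 2
      _ = 9 * (256 ^ 2) ^ l := by rw [mul_pow, ← pow_mul, ← pow_mul, mul_comm l]; norm_num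
      _ ≤ _ := mul_le_mul a1 (pow_le_pow_left₀ (by norm_num) a2 l) (by positivity)
        (Real.exp_pos _).le
  rw [mul_comm (5 + 16 * (l : ℝ)), Real.exp_nat_mul]
  exact (pow_le_pow_right₀ (one_le_pow₀ (by linarith)) hk).trans
    (pow_le_pow_left₀ (by positivity) a3 n)

end Net

open Net in
theorem net : NetSt := by
  classical
  intro m n W _ hW l
  rcases Nat.eq_zero_or_pos m with rfl | hm
  · exact ⟨{0}, by simpa using by positivity, fun ξ _ => ⟨0, by simp, by simp⟩⟩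
  have hm' : (0 : ℝ) < m := by exact_mod_cast hm
  have h16 : (0 : ℝ) < 16 ^ l := by positivity
  obtain ⟨P, hP, hc⟩ := max_sep (fun p q : W => rho (p.1 - q.1))
    (fun x y => by rw [← rho_neg, neg_sub]) (fun x => by rw [sub_self, rho_zero])
    {p | rho (p : Fin m → ℝ) ≤ m * 16 ^ l} (δ := m / 16 ^ l)
    (B := Real.exp ((5 + 16 * l) * n)) (by positivity) (fun Z h1 h2 => by
      have := pack W (R := m * 16 ^ l) (η := m / 16 ^ l / 2) (by positivity) (by positivity) Z h1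
        (fun p hp q hq hne => by have := h2 p hp q hq hne; linarith)
      have e : ((m : ℝ) * 16 ^ l + m / 16 ^ l / 2) / (m / 16 ^ l / 2) = 2 * 256 ^ l + 1 := by
        have : (256 : ℝ) ^ l = 16 ^ l * 16 ^ l := by rw [← mul_pow]; norm_num
        rw [this]; field_simp
      rw [e] at this
      exact this.trans (count hW))
  refine ⟨P.image fun (p : W) (i : Fin m) => Real.cos (p.1 i),
    (Nat.cast_le.2 card_image_le).trans hP, fun ξ hξ => ?_⟩
  have e : 4 * (1 / 16 : ℝ) ^ l * (m + ∑ i, √|ξ i|) = 4 * (m / 16 ^ l) + 4 * (rho ξ / 16 ^ l) := by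
    rw [rho, one_div, inv_pow]; ring
  have r0 : 0 ≤ rho ξ / 16 ^ l := div_nonneg (rho_nonneg ξ) h16.le
  have r1 : (0 : ℝ) ≤ m / 16 ^ l := by positivity
  rw [e]
  by_cases h : rho ξ ≤ m * 16 ^ l
  · obtain ⟨p, hp, a⟩ := hc ⟨ξ, hξ⟩ h
    refine ⟨_, mem_image_of_mem _ hp, ?_⟩
    have : ∑ i, (Real.cos (ξ i) - Real.cos ((p : Fin m → ℝ) i)) ^ 2
        ≤ 4 * rho (ξ - (p : Fin m → ℝ)) := by
      rw [rho, mul_sum]; exact sum_le_sum fun i _ => cos_sq_le' _ _
    have a' : rho (ξ - (p : Fin m → ℝ)) ≤ m / 16 ^ l := a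
    linarith
  · obtain ⟨p, hp, -⟩ := hc 0 (by
      show rho ((0 : W) : Fin m → ℝ) ≤ _
      rw [Submodule.coe_zero, rho_zero]; positivity)
    refine ⟨_, mem_image_of_mem _ hp, ?_⟩
    have : ∑ i, (Real.cos (ξ i) - Real.cos ((p : Fin m → ℝ) i)) ^ 2 ≤ ∑ _i : Fin m, (4 : ℝ) :=
      sum_le_sum fun i _ => cos_sq_le _ _
    rw [sum_const, card_univ, Fintype.card_fin, nsmul_eq_mul] at this
    have : (m : ℝ) ≤ rho ξ / 16 ^ l := by rw [le_div_iff₀ h16]; linarith
    linarith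

end Pool.Agent.H157Z.Zon
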