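import Pool.Agent.H157Z.Zon.Spec

set_option autoImplicit false

namespace Pool.Agent.H157Z.Zon

open MeasureTheory Finset

namespace Pig

noncomputable def e {m : ℕ} (S : Finset (Fin m)) : Fin m → ℝ :=
  fun i => if i ∈ S then 1 / 20 else -1 / 20

lemma small_count (m : ℕ) :
    (((univ : Finset (Finset (Fin m))).filter fun D => 20 * D.card < m).card : ℝ) ≤
      Real.exp (0.21 * m) := by
  set x : ℝ := Real.exp (-2.8) with hx
  have hx0 : 0 < x := Real.exp_pos _
  have hx1 : x ≤ 0.07 := by
    have h1 : (1.1 : ℝ) ≤ Real.exp 0.1 := by have := Real.add_one_le_exp (0.1 : ℝ); linarith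
    have h2 : (1.1 : ℝ) ^ 28 ≤ Real.exp 0.1 ^ 28 := pow_le_pow_left₀ (by norm_num) h1 28
    rw [← Real.exp_nat_mul] at h2
    have h3 : ((28 : ℕ) : ℝ) * 0.1 = 2.8 := by norm_num
    rw [h3] at h2
    rw [hx, Real.exp_neg, inv_le_comm₀ (Real.exp_pos _) (by norm_num)]
    refine le_trans ?_ h2
    norm_num
  have h1 : ∑ D : Finset (Fin m), x ^ D.card = (1 + x) ^ m := by
    have := Finset.prod_one_add (s := (univ : Finset (Fin m))) (f := fun _ => x)
    simp only [prod_const, card_univ, Fintype.card_fin, powerset_univ] at this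
    exact this.symm
  have h2 : (((univ : Finset (Finset (Fin m))).filter fun D => 20 * D.card < m).card : ℝ) *
      Real.exp (-0.14 * m) ≤ ∑ D : Finset (Fin m), x ^ D.card := by
    rw [← nsmul_eq_mul, ← Finset.sum_const]
    refine le_trans (Finset.sum_le_sum fun D hD => ?_)
      (Finset.sum_le_sum_of_subset_of_nonneg (Finset.filter_subset _ _) fun _ _ _ => by positivity)
    have : ((20 * D.card : ℕ) : ℝ) ≤ m := by exact_mod_cast (Finset.mem_filter.1 hD).2.le
    push_cast at this
    rw [hx, ← Real.exp_nat_mul]
    exact Real.exp_le_exp.2 (by linarith)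
  have h3 : (1 + x) ^ m ≤ Real.exp (0.07 * m) := by
    rw [mul_comm, Real.exp_nat_mul]
    exact pow_le_pow_left₀ (by positivity) (by have := Real.add_one_le_exp (0.07 : ℝ); linarith) m
  have h4 : Real.exp (0.07 * m) = Real.exp (0.21 * m) * Real.exp (-0.14 * m) := by
    rw [← Real.exp_add]; congr 1; ring
  rw [h1] at h2
  exact le_of_mul_le_mul_right (h2.trans (h3.trans h4.le)) (Real.exp_pos _)

end Pig

open Pig in
theorem pig : PigSt := by
  intro m h hm hc hn ht hv
  by_contra H
  push Not at H
  set A : Finset (Fin m) → Set (Fin m → ℝ) := fun S => {z | h (z - e S) < 1} with hA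
  have mA : ∀ S, MeasurableSet (A S) := fun S =>
    (isOpen_lt (hc.comp (continuous_id.sub continuous_const)) continuous_const).measurableSet
  have vA : ∀ S, volume (A S) = volume {x | h x < 1} := fun S => by
    have : A S = (fun z => z + -e S) ⁻¹' {x | h x < 1} := by
      ext z; simp [hA, sub_eq_add_neg]
    rw [this, measure_preimage_add_right]
  have bA : ∀ S, A S ⊆ Metric.closedBall 0 (21 / 20) := by
    intro S z hz
    have h1 : ‖z - e S‖ < 1 := (hn _).trans_lt hz
    have h2 : ‖e S‖ ≤ 1 / 20 := by
      refine (pi_norm_le_iff_of_nonneg (by norm_num)).2 fun i => ?_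
      unfold e; split_ifs <;> norm_num [abs_of_pos]
    rw [mem_closedBall_zero_iff]
    have := norm_add_le (z - e S) (e S)
    rw [sub_add_cancel] at this
    linarith
  have close : ∀ z S S', z ∈ A S → z ∈ A S' → 20 * (symmDiff S' S).card < m := by
    intro z S S' h1 h2
    by_contra hc'
    have := H (fun i => 10 * (e S' i - e S i)) (fun i => by
      unfold e; split_ifs <;> norm_num) (by
      have : (univ.filter fun i => 10 * (e S' i - e S i) ≠ 0) = symmDiff S' S := by
        ext i
        simp only [mem_filter, mem_univ, true_and, Finset.mem_symmDiff, e]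
        by_cases a : i ∈ S <;> by_cases b : i ∈ S' <;> simp [a, b] <;> norm_num
      rw [this]; omega)
    have e1 : ((1 / 10 : ℝ) • fun i => 10 * (e S' i - e S i)) = (z - e S) - (z - e S') := by
      ext i; simp
    rw [e1] at this
    have h3 := ht (z - e S) (z - e S')
    have h4 : h (z - e S) < 1 := h1
    have h5 : h (z - e S') < 1 := h2
    linarith
  have pt : ∀ z, ∑ S : Finset (Fin m), (A S).indicator (fun _ => (1 : ENNReal)) z ≤
      (Metric.closedBall (0 : Fin m → ℝ) (21 / 20)).indicator
        (fun _ => ENNReal.ofReal (Real.exp (0.21 * m))) z := by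
    classical
    intro z
    by_cases hz : ∃ S0, z ∈ A S0
    · obtain ⟨S0, hS0⟩ := hz
      rw [Set.indicator_of_mem (bA S0 hS0)]
      simp only [Set.indicator_apply, Finset.sum_boole]
      rw [← ENNReal.ofReal_natCast]
      refine ENNReal.ofReal_le_ofReal (le_trans ?_ (small_count m))
      refine Nat.cast_le.2 (Finset.card_le_card_of_injOn (fun S => symmDiff S S0) ?_ ?_)
      · intro S hS
        simp only [coe_filter, mem_univ, true_and, Set.mem_ofPred_eq] at hS ⊢
        exact close z S0 S hS0 hS
      · intro a _ b _ hab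
        exact symmDiff_left_injective S0 hab
    · push Not at hz
      simp [Set.indicator_of_notMem (hz _)]
  have I1 := lintegral_mono (μ := volume) pt
  rw [lintegral_finsetSum _ (fun S _ => measurable_const.indicator (mA S)),
    lintegral_indicator_const Metric.isClosed_closedBall.measurableSet,
    Real.volume_pi_closedBall _ (by norm_num)] at I1
  simp only [lintegral_indicator_const (mA _), one_mul, vA, Finset.sum_const, Finset.card_univ,
    Fintype.card_finset, Fintype.card_fin, nsmul_eq_mul] at I1
  have I2 := (mul_le_mul_right hv _).trans I1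
  rw [← ENNReal.ofReal_natCast, ← ENNReal.ofReal_mul (by positivity),
    ← ENNReal.ofReal_mul (by positivity), ENNReal.ofReal_le_ofReal_iff (by positivity)] at I2
  push_cast at I2
  have e1 : Real.exp (0.3 * m) = Real.exp (0.21 * m) * Real.exp 0.09 ^ m := by
    rw [← Real.exp_nat_mul, ← Real.exp_add]; congr 1; ring
  have e2 : (2 * (21 / 20) : ℝ) ^ m < (2 * Real.exp 0.09) ^ m := by
    refine pow_lt_pow_left₀ ?_ (by norm_num) (by omega)
    have := Real.add_one_le_exp (0.09 : ℝ); linarith
  rw [e1] at I2
  rw [mul_pow 2 (Real.exp 0.09)] at e2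
  have := mul_lt_mul_of_pos_left e2 (Real.exp_pos (0.21 * m))
  nlinarith

end Pool.Agent.H157Z.Zon
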