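import Pool.Agent.H157Z.Zon.Spec

set_option autoImplicit false

/-! Sampling with Cauchy coefficients. -/

namespace Pool.Agent.H157Z.Zon

open MeasureTheory Finset ProbabilityTheory Complex FourierTransform

namespace Sample

/-- the two sided exponential -/
noncomputable def ex (x : ℝ) : ℂ := (Real.exp (-|x|) : ℝ)

theorem ex_mul_Ioi (s : ℝ) : ∀ x ∈ Set.Ioi (0 : ℝ),
    cexp (↑(s * x) * I) • ex x = cexp ((s * I - 1) * x) := by
  intro x hx
  rw [ex, abs_of_pos hx, smul_eq_mul, ofReal_exp, ← Complex.exp_add]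
  congr 1
  push_cast
  ring

theorem ex_mul_Iic (s : ℝ) : ∀ x ∈ Set.Iic (0 : ℝ),
    cexp (↑(s * x) * I) • ex x = cexp ((s * I + 1) * x) := by
  intro x hx
  rw [ex, abs_of_nonpos hx, smul_eq_mul, ofReal_exp, ← Complex.exp_add]
  congr 1
  push_cast
  ring

theorem int_Ioi (s : ℝ) : IntegrableOn (fun x => cexp (↑(s * x) * I) • ex x) (Set.Ioi 0) :=
  (integrableOn_exp_mul_complex_Ioi (a := s * I - 1) (by simp) 0).congr_fun
    (fun x hx => (ex_mul_Ioi s x hx).symm) measurableSet_Ioi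

theorem int_Iic (s : ℝ) : IntegrableOn (fun x => cexp (↑(s * x) * I) • ex x) (Set.Iic 0) :=
  (integrableOn_exp_mul_complex_Iic (a := s * I + 1) (by simp) 0).congr_fun
    (fun x hx => (ex_mul_Iic s x hx).symm) measurableSet_Iic

theorem integrable_ex : Integrable ex := by
  have h := (int_Iic 0).union (int_Ioi 0)
  rw [Set.Iic_union_Ioi, integrableOn_univ] at h
  simpa using h

theorem int_ex (s : ℝ) : ∫ x, cexp (↑(s * x) * I) • ex x = ((2 * (1 + s ^ 2)⁻¹ : ℝ) : ℂ) := by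
  rw [← intervalIntegral.integral_Iic_add_Ioi (int_Iic s) (int_Ioi s),
    setIntegral_congr_fun measurableSet_Iic (ex_mul_Iic s),
    setIntegral_congr_fun measurableSet_Ioi (ex_mul_Ioi s),
    integral_exp_mul_complex_Iic (by simp), integral_exp_mul_complex_Ioi (by simp)]
  have h1 : (s : ℂ) * I + 1 ≠ 0 := fun h => by simpa using congrArg Complex.re h
  have h2 : (s : ℂ) * I - 1 ≠ 0 := fun h => by simpa using congrArg Complex.re h
  have h3 : (1 : ℂ) + s ^ 2 ≠ 0 := by
    have : (0 : ℝ) < 1 + s ^ 2 := by positivity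
    exact_mod_cast this.ne'
  simp only [ofReal_zero, mul_zero, Complex.exp_zero]
  push_cast
  field_simp
  ring_nf
  simp only [I_sq]
  ring

theorem fourier_ex (w : ℝ) : 𝓕 ex w = ((2 * (1 + (2 * Real.pi * w) ^ 2)⁻¹ : ℝ) : ℂ) := by
  rw [Real.fourier_real_eq_integral_exp_smul]
  have := int_ex (-(2 * Real.pi * w))
  rw [neg_sq] at this
  rw [← this]
  congr 1
  ext x
  congr 3
  ring

theorem cauchy_int (t : ℝ) :
    ∫ x : ℝ, cexp (t * x * I) ∂(cauchyMeasure 0 1) = (Real.exp (-|t|) : ℝ) := by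
  have hpi : (2 * Real.pi) ≠ 0 := by positivity
  have h1 : Integrable (𝓕 ex) := by
    have : 𝓕 ex = fun w => ((2 * (1 + (2 * Real.pi * w) ^ 2)⁻¹ : ℝ) : ℂ) := funext fourier_ex
    rw [this]
    exact ((integrable_inv_one_add_sq.comp_mul_left' hpi).const_mul 2).ofReal
  have hc : Continuous ex := by unfold ex; fun_prop
  have h2 := congrFun (hc.fourierInv_fourier_eq integrable_ex h1) t
  rw [Real.fourierInv_eq'] at h2
  simp only [fourier_ex] at h2
  have h3 := Measure.integral_comp_mul_left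
    (fun x : ℝ => cexp (t * x * I) • ((2 * (1 + x ^ 2)⁻¹ : ℝ) : ℂ)) (2 * Real.pi)
  have h4 : ∫ x : ℝ, cexp (t * ((2 * Real.pi * x : ℝ) : ℂ) * I) •
      ((2 * (1 + (2 * Real.pi * x) ^ 2)⁻¹ : ℝ) : ℂ) = ex t := by
    rw [← h2]
    congr 1
    ext x
    congr 2
    simp only [RCLike.inner_apply, conj_trivial]
    push_cast
    ring
  rw [h4] at h3
  rw [cauchyMeasure_of_scale_ne_zero 0 one_ne_zero,
    integral_withDensity_eq_integral_toReal_smul (measurable_cauchyPDF 0 1)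
      (ae_of_all _ fun x => (ENNReal.ofReal_lt_top : cauchyPDF 0 1 x < ⊤))]
  change _ = ex t
  rw [h3, ← integral_smul]
  congr 1
  ext x
  rw [cauchyPDF, ENNReal.toReal_ofReal (cauchyPDF_pos 0 one_ne_zero x).le, cauchyPDFReal,
    abs_of_pos (by positivity : (0 : ℝ) < (2 * Real.pi)⁻¹)]
  have h5 : (Real.pi : ℂ) ≠ 0 := by exact_mod_cast Real.pi_ne_zero
  simp only [real_smul, smul_eq_mul, NNReal.coe_one]
  push_cast
  rw [sub_zero, one_pow, add_comm ((x : ℂ) ^ 2) 1]
  field_simp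

variable {J : Type} [Fintype J]

/-- independent Cauchy coefficients -/
noncomputable def mu (J : Type) [Fintype J] : Measure (J → ℝ) :=
  Measure.pi fun _ => cauchyMeasure 0 1

instance : IsProbabilityMeasure (mu J) := by unfold mu; infer_instance

theorem char_sum (a : J → ℝ) (t : ℝ) :
    ∫ c, cexp (t * ((∑ j, c j * a j : ℝ) : ℂ) * I) ∂(mu J) =
      (Real.exp (-(|t| * ∑ j, |a j|)) : ℝ) := by
  have h1 : ∀ c : J → ℝ, cexp (t * ((∑ j, c j * a j : ℝ) : ℂ) * I) =
      ∏ j, cexp (((t * a j : ℝ) : ℂ) * (c j : ℝ) * I) := by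
    intro c
    rw [← Complex.exp_sum]
    congr 1
    push_cast
    rw [Finset.mul_sum, Finset.sum_mul]
    exact Finset.sum_congr rfl fun j _ => by ring
  simp_rw [h1]
  rw [mu, integral_fintype_prod_eq_prod (f := fun j (x : ℝ) => cexp (((t * a j : ℝ) : ℂ) * x * I))]
  simp_rw [cauchy_int]
  rw [← ofReal_prod, ← Real.exp_sum, Finset.mul_sum, ← Finset.sum_neg_distrib]
  simp_rw [abs_mul]

theorem meas_sum (a : J → ℝ) : Measurable fun c : J → ℝ => ∑ j, c j * a j := by fun_prop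

theorem int_cos (a : J → ℝ) : Integrable (fun c : J → ℝ => Real.cos (∑ j, c j * a j)) (mu J) :=
  Integrable.of_bound (Real.measurable_cos.comp (meas_sum a)).aestronglyMeasurable 1
    (ae_of_all _ fun _ => Real.abs_cos_le_one _)

theorem cos_mean (a : J → ℝ) :
    ∫ c, Real.cos (∑ j, c j * a j) ∂(mu J) = Real.exp (-∑ j, |a j|) := by
  have h := char_sum a 1
  have hi : Integrable (fun c : J → ℝ => cexp ((1 : ℝ) * ((∑ j, c j * a j : ℝ) : ℂ) * I)) (mu J) := by
    refine Integrable.of_bound (Continuous.aestronglyMeasurable (by fun_prop)) 1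
      (ae_of_all _ fun c => ?_)
    rw [← ofReal_mul, norm_exp_ofReal_mul_I]
  have h2 := congrArg Complex.re h
  rw [← RCLike.re_to_complex, ← integral_re hi] at h2
  simp only [abs_one, one_mul, ofReal_re, RCLike.re_to_complex, ofReal_one,
    exp_ofReal_mul_I_re] at h2
  exact h2

theorem tail (a : J → ℝ) (ha : ∑ j, |a j| ≤ 1) {r : ℝ} (hr : 0 < r) :
    mu J {c | r < |∑ j, c j * a j|} ≤ ENNReal.ofReal (4 / r) := by
  have hp : IsProbabilityMeasure ((mu J).map fun c : J → ℝ => ∑ j, c j * a j) :=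
    Measure.isProbabilityMeasure_map (meas_sum a).aemeasurable
  have h := measureReal_abs_gt_le_integral_charFun
    (μ := (mu J).map fun c : J → ℝ => ∑ j, c j * a j) hr
  have hA : 0 ≤ ∑ j, |a j| := Finset.sum_nonneg fun j _ => abs_nonneg _
  have hb : ‖∫ t in (-2 * r⁻¹)..(2 * r⁻¹),
      1 - charFun ((mu J).map fun c : J → ℝ => ∑ j, c j * a j) t‖ ≤
      (2 * r⁻¹) * |2 * r⁻¹ - -2 * r⁻¹| := by
    refine intervalIntegral.norm_integral_le_of_norm_le_const fun t ht => ?_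
    have hri : 0 < r⁻¹ := inv_pos.2 hr
    rw [Set.uIoc_of_le (by linarith)] at ht
    have ht' : |t| ≤ 2 * r⁻¹ := abs_le.2 ⟨by linarith [ht.1], ht.2⟩
    rw [charFun_apply_real, integral_map (meas_sum a).aemeasurable (by fun_prop), char_sum,
      ← ofReal_one, ← ofReal_sub, Complex.norm_real, Real.norm_eq_abs]
    have h0 : 0 ≤ |t| * ∑ j, |a j| := mul_nonneg (abs_nonneg _) hA
    have h1 : Real.exp (-(|t| * ∑ j, |a j|)) ≤ 1 := Real.exp_le_one_iff.2 (by linarith)
    have h2 := Real.add_one_le_exp (-(|t| * ∑ j, |a j|))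
    have h3 : |t| * ∑ j, |a j| ≤ |t| := mul_le_of_le_one_right (abs_nonneg _) ha
    rw [abs_of_nonneg (by linarith)]
    linarith
  rw [map_measureReal_apply (meas_sum a) (measurableSet_lt measurable_const (by fun_prop))] at h
  rw [← ofReal_measureReal]
  refine ENNReal.ofReal_le_ofReal (h.trans ?_)
  refine (mul_le_mul_of_nonneg_left hb (by positivity)).trans (le_of_eq ?_)
  rw [abs_of_pos (by have := inv_pos.2 hr; linarith)]
  field_simp
  ring

theorem sqrt_lint (a : J → ℝ) (ha : ∑ j, |a j| ≤ 1) :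
    ∫⁻ c, ENNReal.ofReal √|∑ j, c j * a j| ∂(mu J) ≤ ENNReal.ofReal 4 := by
  rw [lintegral_eq_lintegral_meas_lt _ (ae_of_all _ fun _ => Real.sqrt_nonneg _)
    (Continuous.aemeasurable (by fun_prop)), ← Set.Ioc_union_Ioi_eq_Ioi (by norm_num : (0 : ℝ) ≤ 2)]
  refine (lintegral_union_le _ _ _).trans ?_
  have h1 : ∫⁻ t in Set.Ioc (0 : ℝ) 2, mu J {c | t < √|∑ j, c j * a j|} ≤ ENNReal.ofReal 2 := by
    refine (lintegral_mono fun t => prob_le_one).trans ?_
    simp
  have h2 : ∫⁻ t in Set.Ioi (2 : ℝ), mu J {c | t < √|∑ j, c j * a j|} ≤ ENNReal.ofReal 2 := by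
    have h3 : ∫⁻ t in Set.Ioi (2 : ℝ), mu J {c | t < √|∑ j, c j * a j|} ≤
        ∫⁻ t in Set.Ioi (2 : ℝ), ENNReal.ofReal (4 * t ^ (-2 : ℝ)) := by
      refine setLIntegral_mono' measurableSet_Ioi fun t ht => ?_
      have ht0 : 0 < t := lt_trans (by norm_num) ht
      have h4 : {c : J → ℝ | t < √|∑ j, c j * a j|} = {c | t ^ 2 < |∑ j, c j * a j|} := by
        ext c
        exact Real.lt_sqrt ht0.le
      rw [h4]
      refine (tail a ha (by positivity)).trans (le_of_eq ?_)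
      rw [Real.rpow_neg ht0.le, Real.rpow_two, div_eq_mul_inv]
    refine h3.trans (le_of_eq ?_)
    rw [← ofReal_integral_eq_lintegral_ofReal
      ((integrableOn_Ioi_rpow_of_lt (by norm_num) (by norm_num)).const_mul 4)
      ((ae_restrict_iff' measurableSet_Ioi).2 (ae_of_all _ fun t ht => by
        have ht0 : 0 < t := lt_trans (by norm_num) ht
        positivity)),
      integral_const_mul, integral_Ioi_rpow_of_lt (by norm_num) (by norm_num)]
    congr 1
    norm_num [Real.rpow_neg_one]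
  refine (add_le_add h1 h2).trans (le_of_eq ?_)
  rw [← ENNReal.ofReal_add (by norm_num) (by norm_num)]
  norm_num

theorem int_sqrt (a : J → ℝ) (ha : ∑ j, |a j| ≤ 1) :
    Integrable (fun c : J → ℝ => √|∑ j, c j * a j|) (mu J) := by
  refine ⟨Continuous.aestronglyMeasurable (by fun_prop), ?_⟩
  rw [hasFiniteIntegral_iff_ofReal (ae_of_all _ fun _ => Real.sqrt_nonneg _)]
  exact (sqrt_lint a ha).trans_lt ENNReal.ofReal_lt_top

theorem sqrt_mean (a : J → ℝ) (ha : ∑ j, |a j| ≤ 1) :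
    ∫ c, √|∑ j, c j * a j| ∂(mu J) ≤ 4 := by
  rw [integral_eq_lintegral_of_nonneg_ae (ae_of_all _ fun _ => Real.sqrt_nonneg _)
    (int_sqrt a ha).1]
  exact ENNReal.toReal_le_of_le_ofReal (by norm_num) (sqrt_lint a ha)

theorem step {m : ℕ} (v : J → Fin m → ℝ) (hv : ∀ i, ∑ j, |v j i| ≤ 1) (e : Fin m → ℝ) :
    ∃ c : J → ℝ, ∑ i, ((e i + (Real.cos (∑ j, c j * v j i) - Real.exp (-∑ j, |v j i|))) ^ 2 +
      √|∑ j, c j * v j i|) ≤ ∑ i, e i ^ 2 + 6 * m := by
  let g : Fin m → (J → ℝ) → ℝ := fun i c =>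
    ((e i - Real.exp (-∑ j, |v j i|)) ^ 2 + 1) +
      2 * (e i - Real.exp (-∑ j, |v j i|)) * Real.cos (∑ j, c j * v j i) + √|∑ j, c j * v j i|
  have hg : ∀ i, Integrable (g i) (mu J) := fun i =>
    ((integrable_const _).add ((int_cos fun j => v j i).const_mul _)).add
      (int_sqrt (fun j => v j i) (hv i))
  have hg2 : ∀ i, ∫ c, g i c ∂(mu J) ≤ e i ^ 2 + 6 := by
    intro i
    have h1 := sqrt_mean (fun j => v j i) (hv i)
    have h2 := cos_mean (fun j => v j i)
    simp only [g]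
    rw [integral_add (by exact (integrable_const _).add ((int_cos fun j => v j i).const_mul _))
      (int_sqrt (fun j => v j i) (hv i)), integral_add (integrable_const _)
      ((int_cos fun j => v j i).const_mul _), integral_const_mul, h2, integral_const]
    simp only [probReal_univ, smul_eq_mul, one_mul]
    nlinarith [sq_nonneg (Real.exp (-∑ j, |v j i|))]
  obtain ⟨c, hc⟩ := exists_le_integral (μ := mu J) (integrable_finsetSum univ fun i _ => hg i)
  refine ⟨c, le_trans (Finset.sum_le_sum fun i _ => ?_) (hc.trans ?_)⟩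
  · simp only [g]
    nlinarith [Real.cos_sq_le_one (∑ j, c j * v j i)]
  · rw [integral_finsetSum univ fun i _ => hg i]
    refine (Finset.sum_le_sum fun i _ => hg2 i).trans (le_of_eq ?_)
    rw [Finset.sum_add_distrib]
    simp [mul_comm]

theorem greedy {m : ℕ} (v : J → Fin m → ℝ) (hv : ∀ i, ∑ j, |v j i| ≤ 1) (K : ℕ) :
    ∃ c : Fin K → J → ℝ,
      ∑ i, (∑ k, (Real.cos (∑ j, c k j * v j i) - Real.exp (-∑ j, |v j i|))) ^ 2 +
        ∑ k, ∑ i, √|∑ j, c k j * v j i| ≤ 6 * K * m := by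
  induction K with
  | zero => exact ⟨fun k => k.elim0, by simp⟩
  | succ K ih =>
    obtain ⟨c, hc⟩ := ih
    obtain ⟨d, hd⟩ := step v hv
      fun i => ∑ k, (Real.cos (∑ j, c k j * v j i) - Real.exp (-∑ j, |v j i|))
    refine ⟨Fin.snoc (α := fun _ => J → ℝ) c d, ?_⟩
    simp only [Fin.sum_univ_castSucc, Fin.snoc_castSucc, Fin.snoc_last]
    rw [Finset.sum_add_distrib] at hd
    push_cast
    linarith

end Sample

theorem sample : SampleSt := by
  intro m J _ v hv K hK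
  obtain ⟨c, hc⟩ := Sample.greedy v hv K
  set e : Fin m → ℝ := fun i =>
    ∑ k, (Real.cos (∑ j, c k j * v j i) - Real.exp (-∑ j, |v j i|)) with he
  have h1 : 0 ≤ ∑ i, e i ^ 2 := Finset.sum_nonneg fun i _ => sq_nonneg _
  have h2 : 0 ≤ ∑ k, ∑ i, √|∑ j, c k j * v j i| :=
    Finset.sum_nonneg fun k _ => Finset.sum_nonneg fun i _ => Real.sqrt_nonneg _
  have hK' : (0 : ℝ) < K := by exact_mod_cast hK
  refine ⟨c, by linarith, ?_⟩
  have h3 : ∀ i, |Real.exp (-∑ j, |v j i|) - (∑ k, Real.cos (∑ j, c k j * v j i)) / K| =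
      |e i| / K := by
    intro i
    rw [← abs_of_pos hK', ← abs_div, abs_of_pos hK', abs_sub_comm]
    congr 1
    simp only [he, Finset.sum_sub_distrib, Finset.sum_const, Finset.card_univ, Fintype.card_fin,
      nsmul_eq_mul]
    field_simp
  simp_rw [h3]
  rw [← Finset.sum_div]
  have h4 : (∑ i, |e i|) ^ 2 ≤ m * ∑ i, e i ^ 2 := by
    have := sq_sum_le_card_mul_sum_sq (s := univ) (f := fun i => |e i|)
    simpa using this
  have hs : 0 < √(K : ℝ) := Real.sqrt_pos.2 hK'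
  have hs2 : √(K : ℝ) ^ 2 = K := Real.sq_sqrt hK'.le
  have h5 : ∑ i, |e i| ≤ 3 * m * √(K : ℝ) := by
    refine abs_le_of_sq_le_sq' ?_ (by positivity) |>.2
    have hm : (0 : ℝ) ≤ m := Nat.cast_nonneg m
    have h6 : m * ∑ i, e i ^ 2 ≤ m * (6 * K * m) := mul_le_mul_of_nonneg_left (by linarith) hm
    rw [mul_pow, hs2]
    nlinarith [mul_nonneg (mul_nonneg hm hm) hK'.le]
  rw [div_le_div_iff₀ hK' hs]
  calc (∑ i, |e i|) * √(K : ℝ) ≤ 3 * m * √(K : ℝ) * √(K : ℝ) :=
        mul_le_mul_of_nonneg_right h5 hs.le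
    _ = 3 * m * K := by rw [mul_assoc, ← pow_two, hs2]

end Pool.Agent.H157Z.Zon
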