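import Mathlib

set_option autoImplicit false

/-! Statements of the steps in the proof that every zonotope in dimension `d` is approximated
within `1 + ε` by a zonotope with `C d / ε ^ 2` segments. -/

namespace Pool.Agent.H157Z.Zon

open MeasureTheory Finset

/-- nets for the cosine image of a low dimensional subspace -/
def NetSt : Prop :=
  ∀ (m n : ℕ) (W : Submodule ℝ (Fin m → ℝ)), 1 ≤ n → Module.finrank ℝ W ≤ n → ∀ l : ℕ,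
    ∃ G : Finset (Fin m → ℝ), (G.card : ℝ) ≤ Real.exp ((5 + 16 * l) * n) ∧
      ∀ ξ ∈ W, ∃ g ∈ G,
        ∑ i, (Real.cos (ξ i) - g i) ^ 2 ≤ 4 * (1 / 16) ^ l * (m + ∑ i, √|ξ i|)

/-- multilevel empirical approximation -/
def MultiSt : Prop :=
  ∀ (m n : ℕ) (S : Set (Fin m → ℝ)),
    (∀ l : ℕ, ∃ G : Finset (Fin m → ℝ), (G.card : ℝ) ≤ Real.exp ((5 + 16 * l) * n) ∧
      ∀ ξ ∈ S, ∃ g ∈ G,
        ∑ i, (Real.cos (ξ i) - g i) ^ 2 ≤ 4 * (1 / 16) ^ l * (m + ∑ i, √|ξ i|)) →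
    ∀ L : ℕ, ∃ U : Finset (Fin m → ℝ), (U.card : ℝ) ≤ Real.exp (64 * n * 4 ^ L) ∧
      ∀ (K : ℕ) (ξ : Fin K → Fin m → ℝ), 0 < K → (∀ k, ξ k ∈ S) →
        ∑ k, ∑ i, √|ξ k i| ≤ 6 * K * m →
        ∃ u ∈ U, ∑ i, |(∑ k, Real.cos (ξ k i)) / K - u i| ≤ 22 * m / 2 ^ L

/-- sampling with Cauchy coefficients -/
def SampleSt : Prop :=
  ∀ (m : ℕ) (J : Type) [Fintype J] (v : J → Fin m → ℝ), (∀ i, ∑ j, |v j i| ≤ 1) →
    ∀ K : ℕ, 0 < K → ∃ c : Fin K → J → ℝ,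
      (∑ k, ∑ i, √|∑ j, c k j * v j i| ≤ 6 * K * m) ∧
      ∑ i, |Real.exp (-∑ j, |v j i|) - (∑ k, Real.cos (∑ j, c k j * v j i)) / K| ≤
        3 * m / √(K : ℝ)

/-- sums of absolute values of vectors of `V`, of total mass at most one -/
def Tp {m : ℕ} (V : Submodule ℝ (Fin m → ℝ)) : Set (Fin m → ℝ) :=
  {y | ∃ (J : Type) (_ : Fintype J) (v : J → Fin m → ℝ),
    (∀ j, v j ∈ V) ∧ (∀ i, y i = ∑ j, |v j i|) ∧ ∑ i, y i ≤ 1}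

/-- covering of the part of `Tp V` under a given envelope -/
def CoverSt : Prop :=
  ∀ (m n L : ℕ) (V : Submodule ℝ (Fin m → ℝ)), 1 ≤ m → 1 ≤ n → Module.finrank ℝ V ≤ n →
    ∀ r : Fin m → ℕ, ∃ Y : Finset (Fin m → ℝ), (Y.card : ℝ) ≤ Real.exp (64 * n * 4 ^ L) ∧
      ∀ y ∈ Tp V, (∀ i, y i ≤ ((r i : ℝ) + 1) * 500 / m) →
        ∃ w ∈ Y, ∑ i, |y i - w i| / ((r i : ℝ) + 1) ≤ 40000 / 2 ^ L

/-- the cross-polytope plus a multiple of the difference set of `Tp V` -/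
def Qs {m : ℕ} (V : Submodule ℝ (Fin m → ℝ)) (κ : ℝ) : Set (Fin m → ℝ) :=
  {z | ∃ b y y' : Fin m → ℝ, ∑ i, |b i| ≤ 1 ∧ y ∈ Tp V ∧ y' ∈ Tp V ∧ z = b + κ • (y - y')}

/-- volume bound for `Qs` -/
def VolSt : Prop :=
  ∀ (m n L : ℕ) (V : Submodule ℝ (Fin m → ℝ)) (κ : ℝ), 1 ≤ n → Module.finrank ℝ V ≤ n →
    6400 * n * 4 ^ L ≤ m → 0 ≤ κ → κ * 80000 / 2 ^ L ≤ 1 / 20 →
    volume (Qs V κ) ≤ ENNReal.ofReal (Real.exp (0.14 * m) * 2 ^ m / m.factorial)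

/-- pigeonhole principle for sign vectors -/
def PigSt : Prop :=
  ∀ (m : ℕ) (h : (Fin m → ℝ) → ℝ), 1 ≤ m → Continuous h → (∀ x, ‖x‖ ≤ h x) →
    (∀ x y, h (x - y) ≤ h x + h y) →
    ENNReal.ofReal (Real.exp (0.3 * m)) ≤ volume {x | h x < 1} →
    ∃ s : Fin m → ℝ, (∀ i, s i = 0 ∨ s i = 1 ∨ s i = -1) ∧
      m ≤ 20 * (univ.filter (fun i => s i ≠ 0)).card ∧ h ((1 / 10 : ℝ) • s) < 2

/-- soft maximum weights -/
noncomputable def wt {m : ℕ} {J : Type} [Fintype J] (β : ℝ) (p : J → Fin m → ℝ)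
    (x : Fin m → ℝ) (j : J) : ℝ :=
  Real.exp (β * ∑ i, p j i * x i) / ∑ l, Real.exp (β * ∑ i, p l i * x i)

/-- gradient of the soft maximum -/
noncomputable def gr {m : ℕ} {J : Type} [Fintype J] (β : ℝ) (p : J → Fin m → ℝ)
    (x : Fin m → ℝ) : Fin m → ℝ :=
  fun i => ∑ j, wt β p x j * p j i

/-- Hessian of the soft maximum -/
noncomputable def hs {m : ℕ} {J : Type} [Fintype J] (β : ℝ) (p : J → Fin m → ℝ)
    (x : Fin m → ℝ) : Matrix (Fin m) (Fin m) ℝ :=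
  Matrix.of fun a b => β * (∑ j, wt β p x j * p j a * p j b - gr β p x a * gr β p x b)

/-- `hs` is the derivative of `gr` -/
def DerSt : Prop :=
  ∀ (m : ℕ) (J : Type) [Fintype J] [Nonempty J] (β : ℝ) (p : J → Fin m → ℝ) (x : Fin m → ℝ),
    HasFDerivAt (gr β p) (LinearMap.toContinuousLinearMap (Matrix.toLin' (hs β p x))) x

/-- the contour deformation inequality -/
def IdSt : Prop :=
  ∀ (m : ℕ) (J : Type) [Fintype J] [Nonempty J] (β : ℝ) (p : J → Fin m → ℝ),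
    (∀ x : Fin m → ℝ, ‖x‖ - 1 ≤ ∑ i, x i * gr β p x i) →
    ENNReal.ofReal ((4 * Real.pi) ^ m) ≤
      ∫⁻ v : (Fin m → ℝ) × (Fin m → ℝ), ENNReal.ofReal
        (Real.exp (-(∑ i, v.1 i * gr β p v.1 i + ∑ i, v.2 i * gr β p v.2 i) / 2) *
          |(hs β p v.1 + hs β p v.2).det|)

/-- reverse Santalo inequality for symmetric polytopes -/
def BMSt : Prop :=
  ∀ (m : ℕ) (K : Type) [Fintype K] [Nonempty K] (q : K → Fin m → ℝ),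
    (∀ x : Fin m → ℝ, ‖x‖ ≤ ‖fun k => ∑ i, q k i * x i‖) → ∀ Q : Set (Fin m → ℝ),
    (∀ c : K → ℝ, ∑ k, |c k| ≤ 1 → (fun i => ∑ k, c k * q k i) ∈ Q) →
    ENNReal.ofReal (Real.pi ^ m) ≤
      3 * volume Q * m.factorial * volume {x : Fin m → ℝ | ‖fun k => ∑ i, q k i * x i‖ < 1}

/-- one halving step -/
def StepSt : Prop :=
  ∃ C : ℝ, 0 < C ∧ ∀ (m n : ℕ) (V : Submodule ℝ (Fin m → ℝ)), 1 ≤ n → Module.finrank ℝ V ≤ n →
    C * n ≤ m → ∃ s : Fin m → ℝ, (∀ i, s i = 0 ∨ s i = 1 ∨ s i = -1) ∧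
      m ≤ 20 * (univ.filter (fun i => s i ≠ 0)).card ∧
      ∀ v ∈ V, abs (∑ i, s i * |v i|) ≤ C * √((n : ℝ) / m) * ∑ i, |v i|

/-- the approximation theorem -/
def FinalSt : Prop :=
  ∃ C : ℝ, 0 < C ∧
    ∀ (d m : ℕ), d ≤ m →
      ∀ A : Matrix (Fin m) (Fin d) ℝ,
        ∀ ε : ℝ, 0 < ε → ε ≤ 1 / 2 →
          ∃ n : ℕ, (n : ℝ) ≤ C * (d : ℝ) / ε ^ 2 ∧
            ∃ B : Matrix (Fin n) (Fin d) ℝ,
              ∀ x : Fin d → ℝ,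
                (∑ i, |(Matrix.mulVec B x) i|) ≤ ∑ i, |(Matrix.mulVec A x) i| ∧
                (∑ i, |(Matrix.mulVec A x) i|) ≤ (1 + ε) * ∑ i, |(Matrix.mulVec B x) i|

end Pool.Agent.H157Z.Zon
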