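import Pool.Agent.H157Z.Zon.Spec

set_option autoImplicit false

namespace Pool.Agent.H157Z.Zon

open MeasureTheory Finset

namespace Step

/-- decoding of sign vectors -/
def sg {m : ℕ} (t : Fin m → Fin 3) : Fin m → ℝ := fun i => ((t i : ℕ) : ℝ) - 1

theorem exists_sg {m : ℕ} (s : Fin m → ℝ) (hs : ∀ i, s i = 0 ∨ s i = 1 ∨ s i = -1) :
    ∃ t : Fin m → Fin 3, sg t = s := by
  have : ∀ i, ∃ a : Fin 3, ((a : ℕ) : ℝ) - 1 = s i := by
    intro i
    rcases hs i with h | h | h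
    · exact ⟨1, by rw [h]; norm_num⟩
    · exact ⟨2, by rw [h]; norm_num⟩
    · exact ⟨0, by rw [h]; norm_num⟩
  choose t ht using this
  exact ⟨t, funext ht⟩

theorem exists_vec {m : ℕ} (V : Submodule ℝ (Fin m → ℝ)) (D : ℝ) (s : Fin m → ℝ) :
    ∃ v ∈ V, ∑ i, |v i| ≤ 1 ∧
      ((¬ ∀ v ∈ V, abs (∑ i, s i * |v i|) ≤ D * ∑ i, |v i|) → D < abs (∑ i, s i * |v i|)) := by
  by_cases h : ∀ v ∈ V, abs (∑ i, s i * |v i|) ≤ D * ∑ i, |v i|
  · exact ⟨0, V.zero_mem, by simp, fun h' => absurd h h'⟩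
  · push Not at h
    obtain ⟨v, hv, hlt⟩ := h
    have h0 : 0 ≤ ∑ i, |v i| := sum_nonneg fun i _ => abs_nonneg _
    have hpos : 0 < ∑ i, |v i| := by
      rcases h0.lt_or_eq with h1 | h1
      · exact h1
      · exfalso
        have h2 : ∀ i, |v i| = 0 := fun i =>
          (sum_eq_zero_iff_of_nonneg fun i _ => abs_nonneg (v i)).1 h1.symm i (mem_univ i)
        simp [h2] at hlt
    set N := ∑ i, |v i| with hN
    have e1 : ∀ i, |(N⁻¹ • v) i| = N⁻¹ * |v i| := fun i => by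
      simp only [Pi.smul_apply, smul_eq_mul, abs_mul, abs_of_pos (inv_pos.2 hpos)]
    refine ⟨N⁻¹ • v, V.smul_mem _ hv, ?_, fun _ => ?_⟩
    · simp_rw [e1]
      rw [← mul_sum, ← hN, inv_mul_cancel₀ hpos.ne']
    · simp_rw [e1]
      have e2 : ∑ i, s i * (N⁻¹ * |v i|) = N⁻¹ * ∑ i, s i * |v i| := by
        rw [mul_sum]; exact sum_congr rfl fun i _ => by ring
      rw [e2, abs_mul, abs_of_pos (inv_pos.2 hpos), inv_mul_eq_div, lt_div_iff₀ hpos]
      exact hlt

theorem mem_Tp {m : ℕ} (V : Submodule ℝ (Fin m → ℝ)) {J : Type} [Fintype J]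
    (v : J → Fin m → ℝ) (hv : ∀ j, v j ∈ V) (h1 : ∀ j, ∑ i, |v j i| ≤ 1) (a : J → ℝ)
    (ha : ∀ j, 0 ≤ a j) (hs : ∑ j, a j ≤ 1) : (fun i => ∑ j, a j * |v j i|) ∈ Tp V := by
  refine ⟨J, inferInstance, fun j => a j • v j, fun j => V.smul_mem _ (hv j), fun i => ?_, ?_⟩
  · exact sum_congr rfl fun j _ => by
      simp only [Pi.smul_apply, smul_eq_mul, abs_mul, abs_of_nonneg (ha j)]
  · rw [sum_comm]
    refine le_trans (sum_le_sum fun j _ => ?_) hs
    rw [← mul_sum]
    exact mul_le_of_le_one_right (ha j) (h1 j)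

theorem numeric (m : ℕ) (hm : 6400 ≤ m) :
    3 * (Real.exp (0.14 * m) * 2 ^ m) * Real.exp (0.3 * m) ≤ Real.pi ^ m := by
  have hm' : (6400 : ℝ) ≤ m := by exact_mod_cast hm
  have h1 : Real.exp 0.45 ≤ 1.5707 := by
    have := Real.exp_bound' (x := 0.45) (by norm_num) (by norm_num) (n := 4) (by norm_num)
    refine this.trans ?_
    simp only [Finset.sum_range_succ, Finset.sum_range_zero, Nat.factorial]
    norm_num
  have h2 : Real.exp 0.45 * 2 ≤ Real.pi := by
    have := Real.pi_gt_d4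
    linarith
  have h3 : (3 : ℝ) ≤ Real.exp (0.01 * m) := by
    have := Real.add_one_le_exp (0.01 * (m : ℝ))
    linarith
  have h4 : Real.exp (0.01 * m) * Real.exp (0.14 * m) * Real.exp (0.3 * m) =
      Real.exp 0.45 ^ m := by
    rw [← Real.exp_add, ← Real.exp_add, ← Real.exp_nat_mul]
    congr 1; ring
  calc 3 * (Real.exp (0.14 * m) * 2 ^ m) * Real.exp (0.3 * m)
      ≤ Real.exp (0.01 * m) * (Real.exp (0.14 * m) * 2 ^ m) * Real.exp (0.3 * m) := by gcongr
    _ = (Real.exp (0.01 * m) * Real.exp (0.14 * m) * Real.exp (0.3 * m)) * 2 ^ m := by ring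
    _ = (Real.exp 0.45 * 2) ^ m := by rw [h4, mul_pow]
    _ ≤ Real.pi ^ m := pow_le_pow_left₀ (by positivity) h2 m

theorem exists_L (m n : ℕ) (hn : 1 ≤ n) (h : 6400 * n ≤ m) :
    ∃ L : ℕ, 6400 * n * 4 ^ L ≤ m ∧ m < 6400 * n * 4 ^ (L + 1) := by
  have hex : ∃ L : ℕ, m < 6400 * n * 4 ^ L := by
    refine ⟨m, ?_⟩
    have h1 : m < 4 ^ m := Nat.lt_pow_self (by norm_num)
    have h2 : 1 ≤ 6400 * n := by omega
    nlinarith
  classical
  have h0 : Nat.find hex ≠ 0 := by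
    intro h0
    have := Nat.find_spec hex
    rw [h0] at this
    omega
  obtain ⟨L, hL⟩ := Nat.exists_eq_succ_of_ne_zero h0
  refine ⟨L, ?_, ?_⟩
  · have := Nat.find_min hex (m := L) (by omega)
    omega
  · have := Nat.find_spec hex
    rwa [hL] at this

end Step

theorem step (h1 : VolSt) (h2 : PigSt) (h3 : BMSt) : StepSt := by
  classical
  refine ⟨10 ^ 10, by positivity, fun m n V hn hV hm => ?_⟩
  have hn' : (1 : ℝ) ≤ n := by exact_mod_cast hn
  have hmn : 6400 * n ≤ m := by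
    have : ((6400 * n : ℕ) : ℝ) ≤ m := by push_cast; nlinarith
    exact_mod_cast this
  have hm1 : 6400 ≤ m := by omega
  have hm0 : (0 : ℝ) < m := by exact_mod_cast (by omega : 0 < m)
  obtain ⟨L, hL1, hL2⟩ := Step.exists_L m n hn hmn
  set σ := √((n : ℝ) / m) with hσ
  have hσ0 : 0 < σ := Real.sqrt_pos.2 (by positivity)
  have hσ2 : σ ^ 2 = n / m := Real.sq_sqrt (by positivity)
  set D : ℝ := 10 ^ 10 * σ with hD
  have hD0 : 0 < D := by positivity
  set κ : ℝ := 20 / D with hκ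
  have hκ0 : 0 < κ := by positivity
  have hpow : (1 : ℝ) ≤ 160 * σ * 2 ^ L := by
    have h4 : (m : ℝ) ≤ 6400 * n * 4 ^ (L + 1) := by exact_mod_cast hL2.le
    have h5 : (160 * σ * 2 ^ L) ^ 2 = 6400 * n * 4 ^ (L + 1) / m := by
      have : ((2 : ℝ) ^ L) ^ 2 = 4 ^ L := by rw [← pow_mul, mul_comm, pow_mul]; norm_num
      rw [mul_pow, mul_pow, hσ2, this]; field_simp; ring
    have h6 : (1 : ℝ) ^ 2 ≤ (160 * σ * 2 ^ L) ^ 2 := by
      rw [h5, one_pow, le_div_iff₀ hm0]; linarith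
    exact (pow_le_pow_iff_left₀ (by norm_num) (by positivity) two_ne_zero).1 h6
  have hκL : κ * 80000 / 2 ^ L ≤ 1 / 20 := by
    rw [hκ, hD, div_le_iff₀ (by positivity), div_mul_eq_mul_div, div_le_iff₀ (by positivity)]
    nlinarith
  have hvol := h1 m n L V κ hn hV hL1 hκ0.le hκL
  choose v hvV hv1 hv2 using fun t : Fin m → Fin 3 => Step.exists_vec V D (Step.sg t)
  let q : Fin m ⊕ (Fin m → Fin 3) → Fin m → ℝ :=
    Sum.elim (fun i => Pi.single i 1) (fun t i => κ * |v t i|)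
  have hq : ∀ x : Fin m → ℝ, ‖x‖ ≤ ‖fun k => ∑ i, q k i * x i‖ := by
    intro x
    refine (pi_norm_le_iff_of_nonneg (norm_nonneg _)).2 fun i => ?_
    have := norm_le_pi_norm (fun k => ∑ i, q k i * x i) (Sum.inl i)
    simpa [q, Pi.single_apply] using this
  have hQ : ∀ c : Fin m ⊕ (Fin m → Fin 3) → ℝ, ∑ k, |c k| ≤ 1 →
      (fun i => ∑ k, c k * q k i) ∈ Qs V κ := by
    intro c hc
    rw [Fintype.sum_sum_type] at hc
    have p1 : 0 ≤ ∑ i, |c (Sum.inl i)| := sum_nonneg fun _ _ => abs_nonneg _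
    have p2 : 0 ≤ ∑ t, |c (Sum.inr t)| := sum_nonneg fun _ _ => abs_nonneg _
    refine ⟨fun i => c (Sum.inl i), _, _, by linarith,
      Step.mem_Tp V v hvV hv1 (fun t => max (c (Sum.inr t)) 0) (fun _ => le_max_right _ _) ?_,
      Step.mem_Tp V v hvV hv1 (fun t => max (-c (Sum.inr t)) 0) (fun _ => le_max_right _ _) ?_,
      ?_⟩
    · refine le_trans (sum_le_sum fun t _ => ?_) (by linarith : ∑ t, |c (Sum.inr t)| ≤ 1)
      exact max_le (le_abs_self _) (abs_nonneg _)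
    · refine le_trans (sum_le_sum fun t _ => ?_) (by linarith : ∑ t, |c (Sum.inr t)| ≤ 1)
      exact max_le (neg_le_abs _) (abs_nonneg _)
    · funext i
      simp only [Fintype.sum_sum_type, q, Sum.elim_inl, Sum.elim_inr, Pi.add_apply, Pi.smul_apply,
        Pi.sub_apply, smul_eq_mul]
      congr 1
      · simp [Pi.single_apply]
      · rw [← sum_sub_distrib, mul_sum]
        refine sum_congr rfl fun t _ => ?_
        have : max (c (Sum.inr t)) 0 - max (-c (Sum.inr t)) 0 = c (Sum.inr t) :=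
          max_zero_sub_max_neg_zero_eq_self _
        rw [← sub_mul, this]; ring
  have hBM := h3 m (Fin m ⊕ (Fin m → Fin 3)) q hq (Qs V κ) hQ
  set W := volume {x : Fin m → ℝ | ‖fun k => ∑ i, q k i * x i‖ < 1} with hW
  have hA : (0 : ℝ) < 3 * (Real.exp (0.14 * m) * 2 ^ m) := by positivity
  have hW1 : ENNReal.ofReal (Real.exp (0.3 * m)) ≤ W := by
    have e1 : 3 * volume (Qs V κ) * m.factorial ≤
        ENNReal.ofReal (3 * (Real.exp (0.14 * m) * 2 ^ m)) := by
      calc 3 * volume (Qs V κ) * m.factorial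
          ≤ 3 * ENNReal.ofReal (Real.exp (0.14 * m) * 2 ^ m / m.factorial) * m.factorial := by
            gcongr
        _ = ENNReal.ofReal (3 * (Real.exp (0.14 * m) * 2 ^ m / m.factorial) * m.factorial) := by
            rw [ENNReal.ofReal_mul (by positivity), ENNReal.ofReal_mul (by positivity),
              ENNReal.ofReal_natCast, ENNReal.ofReal_ofNat]
        _ = _ := by
            congr 1
            have : (m.factorial : ℝ) ≠ 0 := by exact_mod_cast m.factorial_ne_zero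
            field_simp
    have e2 : ENNReal.ofReal (3 * (Real.exp (0.14 * m) * 2 ^ m)) *
        ENNReal.ofReal (Real.exp (0.3 * m)) ≤
        ENNReal.ofReal (3 * (Real.exp (0.14 * m) * 2 ^ m)) * W := by
      rw [← ENNReal.ofReal_mul hA.le]
      refine (ENNReal.ofReal_le_ofReal (Step.numeric m hm1)).trans (hBM.trans ?_)
      gcongr
    exact (ENNReal.mul_le_mul_iff_right (ENNReal.ofReal_pos.2 hA).ne' ENNReal.ofReal_ne_top).1 e2
  obtain ⟨s, hs1, hs2, hs3⟩ := h2 m (fun x => ‖fun k => ∑ i, q k i * x i‖) (by omega)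
    (by fun_prop) hq (fun x y => by
      have : (fun k => ∑ i, q k i * (x - y) i) =
          (fun k => ∑ i, q k i * x i) - fun k => ∑ i, q k i * y i := by
        funext k
        simp only [Pi.sub_apply, mul_sub, sum_sub_distrib]
      rw [this]
      exact norm_sub_le _ _) hW1
  refine ⟨s, hs1, hs2, ?_⟩
  obtain ⟨t, rfl⟩ := Step.exists_sg s hs1
  by_contra hbad
  have h7 := hv2 t hbad
  have h8 := (norm_le_pi_norm (fun k => ∑ i, q k i * ((1 / 10 : ℝ) • Step.sg t) i)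
    (Sum.inr t)).trans_lt hs3
  have e3 : ∑ i, q (Sum.inr t) i * ((1 / 10 : ℝ) • Step.sg t) i =
      (2 / D) * ∑ i, Step.sg t i * |v t i| := by
    rw [mul_sum]
    refine sum_congr rfl fun i _ => ?_
    simp only [q, Sum.elim_inr, Pi.smul_apply, smul_eq_mul, hκ]
    ring
  simp only [e3, Real.norm_eq_abs, abs_mul, abs_of_pos (by positivity : (0 : ℝ) < 2 / D)] at h8
  rw [div_mul_eq_mul_div, div_lt_iff₀ hD0] at h8
  linarith

end Pool.Agent.H157Z.Zon
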