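import Pool.Agent.H157Z.Zon.Spec

set_option autoImplicit false

namespace Pool.Agent.H157Z.Zon

open MeasureTheory Finset

namespace Vol

theorem vol_l1 {m : ℕ} (hm : 1 ≤ m) {t : ℝ} (ht : 0 ≤ t) :
    volume {x : Fin m → ℝ | ∑ i, |x i| ≤ t} = ENNReal.ofReal (t ^ m * (2 ^ m / m.factorial)) := by
  haveI : Nonempty (Fin m) := ⟨⟨0, hm⟩⟩
  have h := MeasureTheory.volume_sum_rpow_le (Fin m) (p := 1) le_rfl t
  simp only [Real.rpow_one, div_one, Fintype.card_fin] at h
  rw [h, ← ENNReal.ofReal_pow ht, ← ENNReal.ofReal_mul (by positivity), Real.Gamma_nat_eq_factorial]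
  congr 2
  rw [show (1 : ℝ) + 1 = 2 by norm_num, Real.Gamma_two, mul_one]

theorem vol_box {m : ℕ} (hm : 1 ≤ m) {t : ℝ} (ht : 0 ≤ t) (a c : Fin m → ℝ) (hc : ∀ i, 0 < c i) :
    volume {z : Fin m → ℝ | ∑ i, |z i - a i| / c i ≤ t} ≤
      ENNReal.ofReal ((∏ i, c i) * (t ^ m * (2 ^ m / m.factorial))) := by
  classical
  let D : (Fin m → ℝ) →ₗ[ℝ] (Fin m → ℝ) := Matrix.toLin' (Matrix.diagonal c)
  have hsub : {z : Fin m → ℝ | ∑ i, |z i - a i| / c i ≤ t} ⊆
      (fun z => z + (-a)) ⁻¹' (D '' {x : Fin m → ℝ | ∑ i, |x i| ≤ t}) := by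
    intro z hz
    refine ⟨fun i => (z i - a i) / c i, ?_, ?_⟩
    · simp only [Set.mem_setOf_eq] at hz ⊢
      refine le_trans (le_of_eq ?_) hz
      refine Finset.sum_congr rfl fun i _ => ?_
      rw [abs_div, abs_of_pos (hc i)]
    · funext i
      have := (hc i).ne'
      simp only [D, Matrix.toLin'_apply, Matrix.mulVec_diagonal, Pi.add_apply, Pi.neg_apply]
      field_simp
      ring
  refine (measure_mono hsub).trans (le_of_eq ?_)
  have hp : 0 ≤ ∏ i, c i := Finset.prod_nonneg fun i _ => (hc i).le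
  rw [measure_preimage_add_right, Measure.addHaar_image_linearMap, vol_l1 hm ht,
    ← ENNReal.ofReal_mul (abs_nonneg _)]
  simp only [D, LinearMap.det_toLin', Matrix.det_diagonal, abs_of_nonneg hp]

theorem geo (N : ℕ) : ∑ k ∈ range N, ((k : ℝ) + 1) * (1 / 100) ^ k ≤ Real.exp 0.025 := by
  have key : ∀ N : ℕ, (99 / 100) ^ 2 * ∑ k ∈ range N, ((k : ℝ) + 1) * (1 / 100) ^ k =
      1 - (N + 1) * (1 / 100) ^ N + N * (1 / 100) ^ (N + 1) := by
    intro N
    induction N with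
    | zero => simp
    | succ N ih => rw [Finset.sum_range_succ, mul_add, ih]; push_cast; ring
  have h1 := key N
  have h2 : (0 : ℝ) ≤ (1 / 100) ^ N := by positivity
  have h3 : (0 : ℝ) ≤ N * (1 / 100) ^ N := by positivity
  have h4 := Real.add_one_le_exp (0.025 : ℝ)
  rw [pow_succ (1 / 100 : ℝ) N] at h1
  nlinarith

def R (m : ℕ) : Finset (Fin m → ℕ) :=
  (Fintype.piFinset fun _ => range (m + 1)).filter fun r => 500 * ∑ i, r i ≤ m

theorem sum_R (m : ℕ) : ∑ r ∈ R m, ∏ i, ((r i : ℝ) + 1) ≤ Real.exp (0.035 * m) := by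
  have h100 : (100 : ℝ) ≤ Real.exp 5 := by
    have h1 := Real.exp_one_gt_d9
    have h2 : Real.exp 5 = Real.exp 1 ^ 5 := by rw [← Real.exp_nat_mul]; norm_num
    rw [h2]
    calc (100 : ℝ) ≤ 2.7 ^ 5 := by norm_num
      _ ≤ _ := pow_le_pow_left₀ (by norm_num) (by linarith) 5
  have h1 : ∀ r ∈ R m, ∏ i, ((r i : ℝ) + 1) ≤
      Real.exp (0.01 * m) * ∏ i, (((r i : ℝ) + 1) * (1 / 100) ^ (r i)) := by
    intro r hr
    have h2 : 500 * ∑ i, r i ≤ m := (Finset.mem_filter.1 hr).2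
    have h3 : 500 * ((∑ i, r i : ℕ) : ℝ) ≤ m := by exact_mod_cast h2
    rw [Finset.prod_mul_distrib, Finset.prod_pow_eq_pow_sum]
    have h4 : (100 : ℝ) ^ (∑ i, r i) ≤ Real.exp (0.01 * m) := by
      refine (pow_le_pow_left₀ (by norm_num) h100 _).trans ?_
      rw [← Real.exp_nat_mul]
      exact Real.exp_le_exp.2 (by linarith)
    have h5 : 0 ≤ ∏ i, ((r i : ℝ) + 1) := Finset.prod_nonneg fun i _ => by positivity
    have h6 : (100 : ℝ) ^ (∑ i, r i) * (1 / 100) ^ (∑ i, r i) = 1 := by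
      rw [← mul_pow]; norm_num
    have h7 : (0 : ℝ) ≤ (1 / 100) ^ (∑ i, r i) := by positivity
    have h8 := mul_le_mul_of_nonneg_right h4 h7
    rw [h6] at h8
    nlinarith
  refine (Finset.sum_le_sum h1).trans ?_
  rw [← Finset.mul_sum]
  have h2 : ∑ r ∈ R m, ∏ i, (((r i : ℝ) + 1) * (1 / 100) ^ (r i)) ≤ Real.exp (0.025 * m) := by
    refine (Finset.sum_le_sum_of_subset_of_nonneg (Finset.filter_subset _ _)
      fun r _ _ => Finset.prod_nonneg fun i _ => by positivity).trans ?_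
    rw [← Finset.prod_univ_sum (fun _ : Fin m => range (m + 1))
      (fun _ k => ((k : ℝ) + 1) * (1 / 100) ^ k), Finset.prod_const, Finset.card_univ,
      Fintype.card_fin, mul_comm, Real.exp_nat_mul]
    exact pow_le_pow_left₀ (Finset.sum_nonneg fun k _ => by positivity) (geo _) _
  refine (mul_le_mul_of_nonneg_left h2 (Real.exp_pos _).le).trans (le_of_eq ?_)
  rw [← Real.exp_add]; congr 1; ring

theorem exists_r {m : ℕ} (hm : 1 ≤ m) {V : Submodule ℝ (Fin m → ℝ)} {y : Fin m → ℝ}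
    (hy : y ∈ Tp V) : ∃ r ∈ R m, ∀ i, y i ≤ ((r i : ℝ) + 1) * 500 / m := by
  obtain ⟨J, _, v, _, h2, h3⟩ := hy
  have hm' : (0 : ℝ) < m := by exact_mod_cast hm
  have h0 : ∀ i, 0 ≤ y i := fun i => by rw [h2]; positivity
  have hs : 500 * ∑ i, ⌊y i * m / 500⌋₊ ≤ m := by
    have : 500 * ((∑ i, ⌊y i * m / 500⌋₊ : ℕ) : ℝ) ≤ m := by
      push_cast
      have h4 : ∑ i, (⌊y i * m / 500⌋₊ : ℝ) ≤ ∑ i, y i * m / 500 :=
        Finset.sum_le_sum fun i _ => Nat.floor_le (by have := h0 i; positivity)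
      rw [← Finset.sum_div, ← Finset.sum_mul] at h4
      nlinarith
    exact_mod_cast this
  refine ⟨fun i => ⌊y i * m / 500⌋₊, ?_, fun i => ?_⟩
  · refine Finset.mem_filter.2 ⟨Fintype.mem_piFinset.2 fun i => Finset.mem_range.2 ?_, hs⟩
    have := Finset.single_le_sum (f := fun i => ⌊y i * m / 500⌋₊) (fun _ _ => Nat.zero_le _)
      (Finset.mem_univ i)
    omega
  · have := Nat.lt_floor_add_one (y i * m / 500)
    rw [le_div_iff₀ hm']
    linarith

end Vol

open Vol in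
theorem vol (h : CoverSt) : VolSt := by
  intro m n L V κ hn hV hm hκ hκ'
  have hm1 : 1 ≤ m := le_trans (Nat.one_le_iff_ne_zero.2 (by positivity)) hm
  choose Y hY hY' using h m n L V hm1 hn hV
  have hY2 : ∀ r, ((Y r).card : ℝ) ≤ Real.exp (0.01 * m) := by
    intro r
    refine (hY r).trans (Real.exp_le_exp.2 ?_)
    have : ((6400 * n * 4 ^ L : ℕ) : ℝ) ≤ m := by exact_mod_cast hm
    push_cast at this
    linarith
  let B : (Fin m → ℕ) → (Fin m → ℕ) → (Fin m → ℝ) → (Fin m → ℝ) → Set (Fin m → ℝ) :=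
    fun r r' w w' =>
      {z | ∑ i, |z i - (κ • (w - w')) i| / (((r i : ℝ) + 1) * ((r' i : ℝ) + 1)) ≤ 21 / 20}
  have hsub : Qs V κ ⊆ ⋃ r ∈ R m, ⋃ r' ∈ R m, ⋃ w ∈ Y r, ⋃ w' ∈ Y r', B r r' w w' := by
    rintro z ⟨b, y, y', hb, hy, hy', rfl⟩
    obtain ⟨r, hr, hr2⟩ := exists_r hm1 hy
    obtain ⟨r', hr', hr2'⟩ := exists_r hm1 hy'
    obtain ⟨w, hw, hw2⟩ := hY' r y hy hr2
    obtain ⟨w', hw', hw2'⟩ := hY' r' y' hy' hr2'
    simp only [Set.mem_iUnion]
    refine ⟨r, hr, r', hr', w, hw, w', hw', ?_⟩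
    have h1 : ∀ i, |(b + κ • (y - y')) i - (κ • (w - w')) i| / (((r i : ℝ) + 1) * ((r' i : ℝ) + 1)) ≤
        |b i| + κ * (|y i - w i| / ((r i : ℝ) + 1)) + κ * (|y' i - w' i| / ((r' i : ℝ) + 1)) := by
      intro i
      have a1 : (0 : ℝ) ≤ r i := by positivity
      have a2 : (0 : ℝ) ≤ r' i := by positivity
      have e : (b + κ • (y - y')) i - (κ • (w - w')) i = b i + κ * (y i - w i) - κ * (y' i - w' i) := by
        simp; ring
      have a3 : |b i + κ * (y i - w i) - κ * (y' i - w' i)| ≤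
          |b i| + κ * |y i - w i| + κ * |y' i - w' i| := by
        refine (abs_sub _ _).trans (add_le_add ((abs_add_le _ _).trans ?_) ?_)
        · rw [abs_mul, abs_of_nonneg hκ]
        · rw [abs_mul, abs_of_nonneg hκ]
      rw [e]
      refine (div_le_div_of_nonneg_right a3 (by positivity)).trans ?_
      rw [add_div, add_div, mul_div_assoc, mul_div_assoc]
      refine add_le_add (add_le_add (div_le_self (abs_nonneg _) (by nlinarith)) ?_) ?_
      · exact mul_le_mul_of_nonneg_left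
          (div_le_div_of_nonneg_left (abs_nonneg _) (by positivity) (by nlinarith)) hκ
      · exact mul_le_mul_of_nonneg_left
          (div_le_div_of_nonneg_left (abs_nonneg _) (by positivity) (by nlinarith)) hκ
    refine (Finset.sum_le_sum fun i _ => h1 i).trans ?_
    rw [Finset.sum_add_distrib, Finset.sum_add_distrib, ← Finset.mul_sum, ← Finset.mul_sum]
    have b1 := mul_le_mul_of_nonneg_left hw2 hκ
    have b2 := mul_le_mul_of_nonneg_left hw2' hκ
    have b3 : κ * 80000 / 2 ^ L = κ * (40000 / 2 ^ L) + κ * (40000 / 2 ^ L) := by ring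
    linarith
  set F : ℝ := (21 / 20) ^ m * (2 ^ m / m.factorial) with hF
  have hF0 : 0 ≤ F := by positivity
  let P : (Fin m → ℕ) → ℝ := fun r => ∏ i, ((r i : ℝ) + 1)
  have hP : ∀ r, 0 ≤ P r := fun r => Finset.prod_nonneg fun i _ => by positivity
  have hB : ∀ r r' w w', volume (B r r' w w') ≤ ENNReal.ofReal (P r * P r' * F) := by
    intro r r' w w'
    have := vol_box hm1 (t := 21 / 20) (by norm_num) (κ • (w - w'))
      (fun i => ((r i : ℝ) + 1) * ((r' i : ℝ) + 1)) (fun i => by positivity)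
    rwa [Finset.prod_mul_distrib] at this
  set E := Real.exp (0.01 * m) with hE
  have hE0 : 0 ≤ E := (Real.exp_pos _).le
  have hcard : ∀ (r : Fin m → ℕ) (x : ℝ), 0 ≤ x →
      ∑ _w ∈ Y r, ENNReal.ofReal x ≤ ENNReal.ofReal (E * x) := by
    intro r x hx
    rw [← ENNReal.ofReal_sum_of_nonneg (fun _ _ => hx), Finset.sum_const, nsmul_eq_mul]
    exact ENNReal.ofReal_le_ofReal (mul_le_mul_of_nonneg_right (hY2 r) hx)
  have h2 : volume (Qs V κ) ≤
      ∑ r ∈ R m, ∑ r' ∈ R m, ENNReal.ofReal (E * (E * (P r * P r' * F))) := by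
    refine (measure_mono hsub).trans ((measure_biUnion_finset_le _ _).trans
      (Finset.sum_le_sum fun r _ => (measure_biUnion_finset_le _ _).trans
      (Finset.sum_le_sum fun r' _ => (measure_biUnion_finset_le _ _).trans ?_)))
    have a1 := hP r
    have a2 := hP r'
    refine le_trans (Finset.sum_le_sum fun w _ => ?_) (hcard r _ (by positivity))
    exact (measure_biUnion_finset_le _ _).trans
      ((Finset.sum_le_sum fun w' _ => hB r r' w w').trans (hcard r' _ (by positivity)))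
  refine h2.trans ?_
  have h3 : ∀ r r', 0 ≤ E * (E * (P r * P r' * F)) := fun r r' => by
    have a1 := hP r
    have a2 := hP r'
    positivity
  rw [Finset.sum_congr rfl fun r _ => (ENNReal.ofReal_sum_of_nonneg (fun r' _ => h3 r r')).symm,
    ← ENNReal.ofReal_sum_of_nonneg (fun r _ => Finset.sum_nonneg fun r' _ => h3 r r')]
  refine ENNReal.ofReal_le_ofReal ?_
  have h4 : ∑ r ∈ R m, ∑ r' ∈ R m, E * (E * (P r * P r' * F)) =
      E * E * F * ((∑ r ∈ R m, P r) * ∑ r ∈ R m, P r) := by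
    rw [Finset.sum_mul_sum, Finset.mul_sum]
    refine Finset.sum_congr rfl fun r _ => ?_
    rw [Finset.mul_sum]
    exact Finset.sum_congr rfl fun r' _ => by ring
  have h5 : (∑ r ∈ R m, P r) * ∑ r ∈ R m, P r ≤ Real.exp (0.035 * m) * Real.exp (0.035 * m) :=
    mul_self_le_mul_self (Finset.sum_nonneg fun r _ => hP r) (sum_R m)
  have h6 : ((21 : ℝ) / 20) ^ m ≤ Real.exp (0.05 * m) := by
    rw [mul_comm, Real.exp_nat_mul]
    exact pow_le_pow_left₀ (by norm_num) (by linarith [Real.add_one_le_exp (0.05 : ℝ)]) _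
  have h7 : F ≤ Real.exp (0.05 * m) * (2 ^ m / m.factorial) :=
    mul_le_mul_of_nonneg_right h6 (by positivity)
  rw [h4]
  calc E * E * F * ((∑ r ∈ R m, P r) * ∑ r ∈ R m, P r)
      ≤ E * E * (Real.exp (0.05 * m) * (2 ^ m / m.factorial)) *
        (Real.exp (0.035 * m) * Real.exp (0.035 * m)) :=
        mul_le_mul (mul_le_mul_of_nonneg_left h7 (by positivity)) h5
          (mul_self_nonneg _) (by positivity)
    _ = Real.exp (0.14 * m) * 2 ^ m / m.factorial := by
        have : (0.14 : ℝ) * m = 0.01 * m + 0.01 * m + 0.05 * m + 0.035 * m + 0.035 * m := by ring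
        rw [this, hE]
        simp only [Real.exp_add]
        ring

end Pool.Agent.H157Z.Zon
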